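import Pool.Agent.W533.LP.All

/-!
# Noise sensitivity of geometric last passage percolation: final assembly
-/

set_option autoImplicit false

namespace Pool.Agent.W533.LP

theorem gKpzF : GKpz := allKpz

theorem gMainF : GMain := allMain gKpzF

end Pool.Agent.W533.LP
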