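import Pool.Agent.W533.LP.Defs

/-!
# Geometric last passage percolation: exact statements of the parts (KPZ exponents)
-/

namespace Pool.Agent.W533.LP

open MeasureTheory ProbabilityTheory

/-! ### general facts about independent geometric families -/

/-- The joint law is determined by the parameters. -/
def PTransfer : Prop := ∀ {Ω Ω' ι : Type} [MeasurableSpace Ω] [MeasurableSpace Ω'] [Countable ι]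
  (μ : Measure Ω) (μ' : Measure Ω') (p : ι → ℝ) (X : ι → Ω → ℕ) (Y : ι → Ω' → ℕ),
  GeoFam μ p X → GeoFam μ' p Y →
  Measure.map (fun ω i => X i ω) μ = Measure.map (fun ω i => Y i ω) μ'

/-- Existence. -/
def PExist : Prop := ∀ (ι : Type) [Countable ι] (p : ι → ℝ), (∀ i, 0 ≤ p i ∧ p i < 1) →
  ∃ (Ω : Type) (_ : MeasurableSpace Ω) (μ : Measure Ω) (X : ι → Ω → ℕ), GeoFam μ p X

/-- Monotone coupling of the stationary systems with parameters `a ≤ a'`. -/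
def PCouple : Prop := ∀ q a a' : ℝ, 0 < q → q < a → a ≤ a' → a' < 1 →
  ∃ (Ω : Type) (_ : MeasurableSpace Ω) (μ : Measure Ω) (I J I' J' : ℕ → Ω → ℕ)
    (W : ℕ → ℕ → Ω → ℕ), Sys0 μ q a I J W ∧ Sys0 μ q a' I' J' W ∧
    ∀ i ω, I i ω ≤ I' i ω ∧ J' i ω ≤ J i ω

/-- Functions of a block of variables are independent of the other variables. -/
def PBlock : Prop := ∀ {Ω ι ι' κ : Type} [MeasurableSpace Ω] [Countable ι] [Countable ι']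
  [Countable κ] (μ : Measure Ω) (p : ι → ℝ) (p' : ι' → ℝ) (c : κ → ℝ) (X : ι → Ω → ℕ)
  (Z : κ → Ω → ℕ) (F : (ι → ℕ) → ι' → ℕ), Measurable F →
  GeoFam μ (Sum.elim p c) (Sum.elim X Z) →
  GeoFam μ p' (fun i' ω => F (fun i => X i ω) i') →
  GeoFam μ (Sum.elim p' c) (Sum.elim (fun i' ω => F (fun i => X i ω) i') Z)

/-- Burke property: the increments along the north-east boundary of `[0,m] × [0,n]` and the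
spectators are independent geometric. -/
def PBurke : Prop := ∀ {Ω κ : Type} [MeasurableSpace Ω] [Countable κ] (μ : Measure Ω) (q a : ℝ)
  (I J : ℕ → Ω → ℕ) (W : ℕ → ℕ → Ω → ℕ) (c : κ → ℝ) (X : κ → Ω → ℕ), 0 < q → q < a → a < 1 →
  Sys μ q a I J W c X → ∀ m n : ℕ,
  GeoFam μ (Sum.elim (fun _ : Fin m => a) (Sum.elim (fun _ : Fin n => q / a) c))
    (Sum.elim (fun i => Ninc I J W n i) (Sum.elim (fun j => Einc I J W m j) X))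

/-- Sums of independent geometric variables: mean, variance, fourth moment. -/
def PMom : Prop := ∀ A : ℝ, A < 1 → ∃ C : ℝ, 0 < C ∧ ∀ {Ω : Type} [MeasurableSpace Ω]
  (μ : Measure Ω) (a : ℝ) (n : ℕ) (X : Fin n → Ω → ℕ), a ≤ A → GeoFam μ (fun _ => a) X →
  MemLp (fun ω => ∑ i, (X i ω : ℝ)) 4 μ ∧
  ∫ ω, ∑ i, (X i ω : ℝ) ∂μ = n * mean a ∧
  variance (fun ω => ∑ i, (X i ω : ℝ)) μ = n * vari a ∧
  ∫ ω, (∑ i, (X i ω : ℝ) - n * mean a) ^ 4 ∂μ ≤ C * (n : ℝ) ^ 2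

/-- Anti-concentration. -/
def PAnti : Prop := ∀ A' A : ℝ, 0 < A' → A < 1 → ∃ κ : ℝ, 0 < κ ∧ ∀ {Ω : Type}
  [MeasurableSpace Ω] (μ : Measure Ω) (a : ℝ) (n : ℕ) (X : Fin n → Ω → ℕ), 1 ≤ n → A' ≤ a →
  a ≤ A → GeoFam μ (fun _ => a) X →
  κ ≤ μ.real {ω | n * mean a + κ * Real.sqrt n ≤ ∑ i, (X i ω : ℝ)} ∧
  κ ≤ μ.real {ω | ∑ i, (X i ω : ℝ) ≤ n * mean a - κ * Real.sqrt n}

/-- Chernoff bounds. -/
def PChern : Prop := ∀ A : ℝ, A < 1 → ∃ c : ℝ, 0 < c ∧ ∀ {Ω : Type} [MeasurableSpace Ω]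
  (μ : Measure Ω) (a : ℝ) (n : ℕ) (X : Fin n → Ω → ℕ) (x : ℝ), 1 ≤ n → 0 ≤ x → x ≤ n → a ≤ A →
  GeoFam μ (fun _ => a) X →
  μ.real {ω | n * mean a + x ≤ ∑ i, (X i ω : ℝ)} ≤ Real.exp (-c * x ^ 2 / n) ∧
  μ.real {ω | ∑ i, (X i ω : ℝ) ≤ n * mean a - x} ≤ Real.exp (-c * x ^ 2 / n)

/-- Kolmogorov's maximal inequality for the difference of two walks. -/
def PKol : Prop := ∀ {Ω : Type} [MeasurableSpace Ω] (μ : Measure Ω) (a a' : ℝ) (w : ℕ)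
  (X Y : Fin w → Ω → ℕ) (x : ℝ), 0 < x →
  GeoFam μ (Sum.elim (fun _ : Fin w => a) (fun _ : Fin w => a')) (Sum.elim X Y) →
  μ.real {ω | ∃ z : ℕ, z ≤ w ∧ z * (mean a - mean a') + x ≤
    ∑ i : Fin w, if (i : ℕ) < z then ((X i ω : ℝ) - (Y i ω : ℝ)) else 0}
    ≤ w * (vari a + vari a') / x ^ 2

/-! ### the coupling method -/

/-- Mean of `G` and the two variance identities. -/
def PVarId : Prop := ∀ {Ω : Type} [MeasurableSpace Ω] (μ : Measure Ω) (q a : ℝ)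
  (I J : ℕ → Ω → ℕ) (W : ℕ → ℕ → Ω → ℕ), 0 < q → q < a → a < 1 → Sys0 μ q a I J W → ∀ m n : ℕ,
  MemLp (fun ω => (Gr I J W m n ω : ℝ)) 4 μ ∧
  ∫ ω, (Gr I J W m n ω : ℝ) ∂μ = m * mean a + n * mean (q / a) ∧
  variance (fun ω => (Gr I J W m n ω : ℝ)) μ = n * vari (q / a) - m * vari a
    + 2 * mean a * ∑ i ∈ Finset.range m, ∫ ω in Hs I J W i m n, ((I i ω : ℝ) + 1) ∂μ ∧
  variance (fun ω => (Gr I J W m n ω : ℝ)) μ = m * vari a - n * vari (q / a)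
    + 2 * mean (q / a) * ∑ j ∈ Finset.range n, ∫ ω in Vs I J W j m n, ((J j ω : ℝ) + 1) ∂μ

/-- Comparison of the variances for two parameters. -/
def PVarCmp : Prop := ∀ {Ω Ω' : Type} [MeasurableSpace Ω] [MeasurableSpace Ω'] (μ : Measure Ω)
  (μ' : Measure Ω') (q a a' : ℝ) (I J : ℕ → Ω → ℕ) (W : ℕ → ℕ → Ω → ℕ) (I' J' : ℕ → Ω' → ℕ)
  (W' : ℕ → ℕ → Ω' → ℕ), 0 < q → q < a → a < 1 → q < a' → a' < 1 → Sys0 μ q a I J W →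
  Sys0 μ' q a' I' J' W' → ∀ m n : ℕ,
  variance (fun ω => (Gr I' J' W' m n ω : ℝ)) μ' ≤ variance (fun ω => (Gr I J W m n ω : ℝ)) μ
    + m * |vari a' - vari a| + n * |vari (q / a') - vari (q / a)|

/-- First bound for the probability of a long exit. -/
def PT1 : Prop := ∀ q : ℝ, 0 < q → q < 1 → ∃ C : ℝ, 1 ≤ C ∧ ∀ {Ω : Type} [MeasurableSpace Ω]
  (μ : Measure Ω) (a : ℝ) (I J : ℕ → Ω → ℕ) (W : ℕ → ℕ → Ω → ℕ), |a - Real.sqrt q| ≤ 2 * dd q →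
  Sys0 μ q a I J W → ∀ m n u : ℕ, 1 ≤ n → n ≤ 2 * m → m ≤ 2 * n → u < m →
  C * (|(m : ℝ) - n| + n * |a - Real.sqrt q|) ≤ (u : ℝ) + 1 →
  μ.real (Hs I J W u m n) ≤ C * (n : ℝ) ^ 2 *
    (variance (fun ω => (Gr I J W m n ω : ℝ)) μ + ((u : ℝ) + 1)) / ((u : ℝ) + 1) ^ 4

/-- Variance bound. -/
def PVB : Prop := ∀ q : ℝ, 0 < q → q < 1 → ∃ C : ℝ, 1 ≤ C ∧ ∀ {Ω : Type} [MeasurableSpace Ω]
  (μ : Measure Ω) (a : ℝ) (I J : ℕ → Ω → ℕ) (W : ℕ → ℕ → Ω → ℕ), |a - Real.sqrt q| ≤ 2 * dd q →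
  Sys0 μ q a I J W → ∀ m n : ℕ, 1 ≤ n → n ≤ 2 * m → m ≤ 2 * n →
  variance (fun ω => (Gr I J W m n ω : ℝ)) μ ≤
    C * ((n : ℝ) ^ (2 / 3 : ℝ) + |(m : ℝ) - n| + n * |a - Real.sqrt q|)

/-- Exit bounds. -/
def PExit : Prop := ∀ q : ℝ, 0 < q → q < 1 → ∃ C : ℝ, 1 ≤ C ∧ ∀ {Ω : Type} [MeasurableSpace Ω]
  (μ : Measure Ω) (a : ℝ) (I J : ℕ → Ω → ℕ) (W : ℕ → ℕ → Ω → ℕ), |a - Real.sqrt q| ≤ dd q →
  Sys0 μ q a I J W → ∀ m n u : ℕ, 1 ≤ n → n ≤ 2 * m → m ≤ 2 * n →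
  C * ((n : ℝ) ^ (2 / 3 : ℝ) + |(m : ℝ) - n| + n * |a - Real.sqrt q|) ≤ (u : ℝ) + 1 →
  (u < m → μ.real (Hs I J W u m n) ≤ C * (n : ℝ) ^ 2 / ((u : ℝ) + 1) ^ 3) ∧
  (u < n → μ.real (Vs I J W u m n) ≤ C * (n : ℝ) ^ 2 / ((u : ℝ) + 1) ^ 3)

/-- The exit is on the expected side, polynomial tail. -/
def PSW : Prop := ∀ q : ℝ, 0 < q → q < 1 → ∃ C : ℝ, 1 ≤ C ∧ ∀ {Ω : Type} [MeasurableSpace Ω]
  (μ : Measure Ω) (δ : ℝ) (I J : ℕ → Ω → ℕ) (W : ℕ → ℕ → Ω → ℕ) (m n : ℕ),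
  0 < δ → δ ≤ dd q → 1 ≤ n → n ≤ 2 * m → m ≤ 2 * n → C * |(m : ℝ) - n| ≤ n * δ →
  (Sys0 μ q (Real.sqrt q + δ) I J W →
    μ.real {ω | Gr I zr W m n ω < Gr zr J W m n ω} ≤ C / (δ ^ 3 * n)) ∧
  (Sys0 μ q (Real.sqrt q - δ) I J W →
    μ.real {ω | Gr zr J W m n ω < Gr I zr W m n ω} ≤ C / (δ ^ 3 * n))

/-- The exit is on the expected side, exponential tail. -/
def PEX : Prop := ∀ q : ℝ, 0 < q → q < 1 → ∃ C : ℝ, 1 ≤ C ∧ ∀ {Ω : Type} [MeasurableSpace Ω]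
  (μ : Measure Ω) (δ : ℝ) (I J : ℕ → Ω → ℕ) (W : ℕ → ℕ → Ω → ℕ) (m n : ℕ),
  0 < δ → δ ≤ dd q → 1 ≤ n → n ≤ 2 * m → m ≤ 2 * n → C * |(m : ℝ) - n| ≤ n * δ →
  (Sys0 μ q (Real.sqrt q + δ) I J W →
    μ.real {ω | Gr I zr W m n ω < Gr zr J W m n ω} ≤ C * Real.exp (-(δ ^ 4 * n) / C)) ∧
  (Sys0 μ q (Real.sqrt q - δ) I J W →
    μ.real {ω | Gr zr J W m n ω < Gr I zr W m n ω} ≤ C * Real.exp (-(δ ^ 4 * n) / C))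

/-- `G - T` is tight on the scale `n^(1/3)`. -/
def PGT : Prop := ∀ q : ℝ, 0 < q → q < 1 → ∃ C : ℝ, 1 ≤ C ∧ ∀ {Ω : Type} [MeasurableSpace Ω]
  (μ : Measure Ω) (a b : ℝ) (I J : ℕ → Ω → ℕ) (W : ℕ → ℕ → Ω → ℕ) (m n : ℕ),
  1 ≤ b → C * b ≤ (n : ℝ) ^ (1 / 3 : ℝ) → 1 ≤ n → n ≤ 2 * m → m ≤ 2 * n →
  |a - Real.sqrt q| * (n : ℝ) ^ (1 / 3 : ℝ) ≤ b → |(m : ℝ) - n| ≤ b * (n : ℝ) ^ (2 / 3 : ℝ) →
  Sys0 μ q a I J W →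
  μ.real {ω | (Tr W m n ω : ℝ) + C * b ^ 2 * (n : ℝ) ^ (1 / 3 : ℝ) ≤ Gr I J W m n ω}
    ≤ C / b ^ 3

/-- A far exit does not even beat the point to point time. -/
def PFB : Prop := ∀ q : ℝ, 0 < q → q < 1 → ∃ C : ℝ, 1 ≤ C ∧ ∀ {Ω : Type} [MeasurableSpace Ω]
  (μ : Measure Ω) (a : ℝ) (I J : ℕ → Ω → ℕ) (W : ℕ → ℕ → Ω → ℕ) (m n K : ℕ),
  |a - Real.sqrt q| ≤ dd q → 1 ≤ n → n ≤ 2 * m → m ≤ 2 * n →
  C * ((n : ℝ) ^ (2 / 3 : ℝ) + |(m : ℝ) - n| + n * |a - Real.sqrt q|) ≤ K →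
  Sys0 μ q a I J W →
  μ.real {ω | ∃ z, K ≤ z ∧ z < m ∧
    Tr W m n ω ≤ ps (fun i => I i ω) (z + 1) + Tr (shr z 0 W) (m - z) n ω}
    ≤ C * (n : ℝ) ^ 2 / (K : ℝ) ^ 3

/-! ### lower bound for the variance -/

/-- The optimal path crosses the middle row near the middle. -/
def PLoc : Prop := ∀ q ε : ℝ, 0 < q → q < 1 → 0 < ε → ∃ B : ℝ, 0 < B ∧ ∃ N₀ : ℕ, ∀ N ≥ N₀,
  ∀ {Ω : Type} [MeasurableSpace Ω] (μ : Measure Ω) (W : ℕ → ℕ → Ω → ℕ), Bulk μ q W →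
  μ.real {ω | ∃ z < N, B * (N : ℝ) ^ (2 / 3 : ℝ) ≤ |(z : ℝ) - ((N / 2 : ℕ) : ℝ)| ∧
    Tr W (N / 2 + 1) (N / 2) ω + Tr (shr (N / 2) (N / 2) W) (N - N / 2) (N - N / 2) ω
      ≤ Tr W (z + 1) (N / 2) ω + Tr (shr z (N / 2) W) (N - z) (N - N / 2) ω} ≤ ε

/-- Increments of the end point hardly depend on the starting point. -/
def PInc : Prop := ∀ q B ε : ℝ, 0 < q → q < 1 → 0 < B → 0 < ε → ∃ c₃ : ℝ, 0 < c₃ ∧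
  ∀ c : ℝ, 0 < c → c ≤ c₃ → ∃ H₀ : ℕ, ∀ H ≥ H₀, ∀ x y E s : ℕ, x ≤ y → y < E →
  c / 2 * (H : ℝ) ^ (2 / 3 : ℝ) ≤ s → (s : ℝ) ≤ c * (H : ℝ) ^ (2 / 3 : ℝ) →
  |(E : ℝ) - x - H| ≤ B * (H : ℝ) ^ (2 / 3 : ℝ) → |(E : ℝ) - y - H| ≤ B * (H : ℝ) ^ (2 / 3 : ℝ) →
  ∀ {Ω : Type} [MeasurableSpace Ω] (μ : Measure Ω) (W : ℕ → ℕ → Ω → ℕ), Bulk μ q W →
  μ.real {ω | ε * Real.sqrt s ≤
    ((Tr (shr y 0 W) (E + s - y) H ω : ℝ) - Tr (shr y 0 W) (E - y) H ω)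
      - ((Tr (shr x 0 W) (E + s - x) H ω : ℝ) - Tr (shr x 0 W) (E - x) H ω)} ≤ ε

/-- Anti-concentration of an increment. -/
def PAc : Prop := ∀ q : ℝ, 0 < q → q < 1 → ∃ κ : ℝ, 0 < κ ∧ ∃ c₂ : ℝ, 0 < c₂ ∧
  ∀ c : ℝ, 0 < c → c ≤ c₂ → ∃ H₀ : ℕ, ∀ H ≥ H₀, ∀ s : ℕ,
  c / 2 * (H : ℝ) ^ (2 / 3 : ℝ) ≤ s → (s : ℝ) ≤ c * (H : ℝ) ^ (2 / 3 : ℝ) →
  ∀ {Ω : Type} [MeasurableSpace Ω] (μ : Measure Ω) (W : ℕ → ℕ → Ω → ℕ), Bulk μ q W →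
  κ ≤ μ.real {ω | s * mean (Real.sqrt q) + κ * Real.sqrt s ≤
    (Tr W (H + s) H ω : ℝ) - Tr W H H ω} ∧
  κ ≤ μ.real {ω | (Tr W (H + s) H ω : ℝ) - Tr W H H ω ≤
    s * mean (Real.sqrt q) - κ * Real.sqrt s}

/-- Lower bound for the variance of the point to point time. -/
def PLB : Prop := ∀ q : ℝ, 0 < q → q < 1 → ∃ c : ℝ, 0 < c ∧ ∃ N₀ : ℕ, ∀ N ≥ N₀,
  ∀ {Ω : Type} [MeasurableSpace Ω] (μ : Measure Ω) (W : ℕ → ℕ → Ω → ℕ), Bulk μ q W →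
  c * (N : ℝ) ^ (2 / 3 : ℝ) ≤ variance (fun ω => (Tr W N N ω : ℝ)) μ

/-! ### upper bound for the sum of the squared influences -/

/-- Second moment of an increment. -/
def PQV : Prop := ∀ q : ℝ, 0 < q → q < 1 → ∃ C : ℝ, 0 < C ∧ ∃ n₀ : ℕ, ∀ n ≥ n₀,
  ∀ s : ℕ, s ^ 2 ≤ n → ∀ m n' : ℕ, (m = n ∨ m = n - s) → (n' = n ∨ n' = n - s) →
  ∀ {Ω : Type} [MeasurableSpace Ω] (μ : Measure Ω) (W : ℕ → ℕ → Ω → ℕ), Bulk μ q W →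
  MemLp (fun ω => (Tr W (m + s) n' ω : ℝ) - Tr W m n' ω) 2 μ ∧
  ∫ ω, ((Tr W (m + s) n' ω : ℝ) - Tr W m n' ω - s * mean (Real.sqrt q)) ^ 2 ∂μ
    ≤ C * (n : ℝ) ^ (11 / 20 : ℝ)

/-- Sum of the squared influences. -/
def PSS : Prop := ∀ q : ℝ, 0 < q → q < 1 → ∃ C : ℝ, 0 < C ∧ ∃ n₀ : ℕ, ∀ n ≥ n₀,
  ∀ {Ω : Type} [MeasurableSpace Ω] (μ : Measure Ω) (W : ℕ → ℕ → Ω → ℕ), Bulk μ q W →
  ∑ i ∈ Finset.range n, ∑ j ∈ Finset.range n,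
    (cov[fun ω => (Tr W n n ω : ℝ), fun ω => (W i j ω : ℝ); μ]) ^ 2
    ≤ C * (n : ℝ) ^ (3 / 5 : ℝ)

end Pool.Agent.W533.LP
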