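import Pool.Agent.W533.LP.Defs

/-!
# Geometric last passage percolation: bookkeeping statements (may be used as hypotheses)
-/

namespace Pool.Agent.W533.LP

open MeasureTheory ProbabilityTheory

/-- `G` is a measurable function of the weights, and increasing in `m` and `n`. -/
def AMeas : Prop :=
  (∀ m n : ℕ, Measurable (fun z : (ℕ → ℕ) × (ℕ → ℕ) × (ℕ → ℕ → ℕ) => G z.1 z.2.1 z.2.2 m n)) ∧
  (∀ {Ω : Type} [MeasurableSpace Ω] (I J : ℕ → Ω → ℕ) (W : ℕ → ℕ → Ω → ℕ),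
    (∀ i, Measurable (I i)) → (∀ j, Measurable (J j)) → (∀ i j, Measurable (W i j)) →
    ∀ m n, Measurable (Gr I J W m n)) ∧
  (∀ (I J : ℕ → ℕ) (W : ℕ → ℕ → ℕ) (m n : ℕ),
    G I J W m n ≤ G I J W (m + 1) n ∧ G I J W m n ≤ G I J W m (n + 1))

/-- Two systems with the same parameters: functions of all the variables have the same law. -/
def ALaw : Prop := ∀ {Ω Ω' κ : Type} [MeasurableSpace Ω] [MeasurableSpace Ω'] [Countable κ]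
  (μ : Measure Ω) (μ' : Measure Ω') (q a : ℝ) (I J : ℕ → Ω → ℕ) (W : ℕ → ℕ → Ω → ℕ)
  (I' J' : ℕ → Ω' → ℕ) (W' : ℕ → ℕ → Ω' → ℕ) (c : κ → ℝ) (X : κ → Ω → ℕ) (X' : κ → Ω' → ℕ),
  Sys μ q a I J W c X → Sys μ' q a I' J' W' c X' →
  ∀ F : (ℕ → ℕ) × (ℕ → ℕ) × (ℕ → ℕ → ℕ) × (κ → ℕ) → ℝ, Measurable F →
  IdentDistrib
    (fun ω => F (fun i => I i ω, fun j => J j ω, fun i j => W i j ω, fun k => X k ω))
    (fun ω => F (fun i => I' i ω, fun j => J' j ω, fun i j => W' i j ω, fun k => X' k ω)) μ μ'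

/-- The same for bulk weights. -/
def ALawB : Prop := ∀ {Ω Ω' : Type} [MeasurableSpace Ω] [MeasurableSpace Ω']
  (μ : Measure Ω) (μ' : Measure Ω') (q : ℝ) (W : ℕ → ℕ → Ω → ℕ) (W' : ℕ → ℕ → Ω' → ℕ),
  Bulk μ q W → Bulk μ' q W' → ∀ F : (ℕ → ℕ → ℕ) → ℝ, Measurable F →
  IdentDistrib (fun ω => F (fun i j => W i j ω)) (fun ω => F (fun i j => W' i j ω)) μ μ'

/-- Existence of systems. -/
def ASys : Prop := ∀ {κ : Type} [Countable κ] (q a : ℝ) (c : κ → ℝ), 0 < q → q < a → a < 1 →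
  (∀ k, 0 ≤ c k ∧ c k < 1) →
  ∃ (Ω : Type) (_ : MeasurableSpace Ω) (μ : Measure Ω) (I J : ℕ → Ω → ℕ)
    (W : ℕ → ℕ → Ω → ℕ) (X : κ → Ω → ℕ), Sys μ q a I J W c X

/-- Operations on systems and bulk weights. -/
def AOps : Prop := ∀ {Ω : Type} [MeasurableSpace Ω] (μ : Measure Ω) (q : ℝ),
  (∀ {κ : Type} (a : ℝ) (I J : ℕ → Ω → ℕ) (W : ℕ → ℕ → Ω → ℕ) (c : κ → ℝ) (X : κ → Ω → ℕ),
    Sys μ q a I J W c X → Sys0 μ q a I J W ∧ Bulk μ q W) ∧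
  (∀ (a : ℝ) (I J : ℕ → Ω → ℕ) (W : ℕ → ℕ → Ω → ℕ), 0 < q → q < a → a < 1 →
    Sys0 μ q a I J W → Sys0 μ q (q / a) J I (fun i j => W j i)) ∧
  (∀ (W : ℕ → ℕ → Ω → ℕ), Bulk μ q W → (∀ x y, Bulk μ q (shr x y W)) ∧
    (∀ m n, Bulk μ q (fun i j ω => rot m n (fun i j => W i j ω) i j)) ∧
    Bulk μ q (fun i j => W j i))

end Pool.Agent.W533.LP
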