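import Pool.Agent.W533.LP.Defs

/-!
# Geometric last passage percolation: exact statements of the parts (noise sensitivity)

`y v` (`v` in the box) are independent geometric; `h v = (κ v, x' v)` are the hidden variables:
`κ v` is true with probability `ρ` and the weight at `v` is `y v + s` if `κ v` is true and `x' v`
otherwise.  Two cases: `s = 0` and `x'` geometric (site resampling), or `s = 1`, `x' = 0` and
`ρ = q` (hidden zeros).  In both cases the weights are independent geometric `q`.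
-/

namespace Pool.Agent.W533.LP

open MeasureTheory ProbabilityTheory

/-- The box. -/
abbrev V (n : ℕ) : Type := Fin n × Fin n

/-- Extension of weights on the box by zero. -/
def ex {n : ℕ} (W : V n → ℕ) : ℕ → ℕ → ℕ :=
  fun i j => if h : i < n ∧ j < n then W (⟨i, h.1⟩, ⟨j, h.2⟩) else 0

/-- Last passage time of the box. -/
def Tc {n : ℕ} (W : V n → ℕ) : ℕ := T (ex W) n n

/-- Level of a site. -/
def lev {n : ℕ} (v : V n) : ℕ := (v.1 : ℕ) + (v.2 : ℕ)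

/-- Slope of `Tc` in the weight at `v`, between `l` and `l + 1`. -/
noncomputable def sl {n : ℕ} (W : V n → ℕ) (v : V n) (l : ℕ) : ℝ :=
  (Tc (Function.update W v (l + 1)) : ℝ) - Tc (Function.update W v l)

/-- `Tc` is the maximum over chains. -/
def DChain : Prop := ∀ (n : ℕ) (W : V n → ℕ), by
  classical
  exact Tc W = (Finset.univ.filter (fun S : Finset (V n) =>
    IsChain (· ≤ ·) (S : Set (V n)))).sup (fun S => ∑ v ∈ S, W v)

/-- Slopes of `Tc`: `0` or `1`, nondecreasing. -/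
def DSl : Prop := ∀ (n : ℕ) (W : V n → ℕ) (v : V n) (l : ℕ),
  (sl W v l = 0 ∨ sl W v l = 1) ∧ sl W v l ≤ sl W v (l + 1)

/-- `Γ` selects an optimal path. -/
structure Geod {n : ℕ} (Γ : (V n → ℕ) → ℕ → V n) : Prop where
  lev : ∀ W k, k + 1 < 2 * n → lev (Γ W k) = k
  mono : ∀ W k l, k ≤ l → l + 1 < 2 * n → Γ W k ≤ Γ W l
  opt : ∀ W v, Γ W (Pool.Agent.W533.LP.lev v) = v → sl W v (W v) = 1
  nec : ∀ W v, 1 ≤ W v → sl W v (W v - 1) = 1 → Γ W (Pool.Agent.W533.LP.lev v) = v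

/-- Existence of optimal paths. -/
def DGeod : Prop := ∀ n : ℕ, 1 ≤ n → ∃ Γ : (V n → ℕ) → ℕ → V n, Geod Γ

/-- Geometric law on `ℕ`. -/
noncomputable def geoM (q : ℝ) : Measure ℕ :=
  Measure.sum (fun k : ℕ => ENNReal.ofReal ((1 - q) * q ^ k) • Measure.dirac k)

/-- Law of the visible variables. -/
noncomputable def muY (q : ℝ) (n : ℕ) : Measure (V n → ℕ) := Measure.pi (fun _ => geoM q)

/-- Law of one hidden variable. -/
noncomputable def hM (q ρ : ℝ) (s : ℕ) : Measure (Bool × ℕ) :=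
  (ENNReal.ofReal ρ • Measure.dirac true + ENNReal.ofReal (1 - ρ) • Measure.dirac false).prod
    (if s = 0 then geoM q else Measure.dirac 0)

/-- Law of the hidden variables. -/
noncomputable def muH (q ρ : ℝ) (s n : ℕ) : Measure (V n → Bool × ℕ) :=
  Measure.pi (fun _ => hM q ρ s)

/-- The weights. -/
def Wt {n : ℕ} (s : ℕ) (y : V n → ℕ) (h : V n → Bool × ℕ) : V n → ℕ :=
  fun v => if (h v).1 then y v + s else (h v).2

/-- Admissible parameters. -/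
def Par (q ρ : ℝ) (s : ℕ) : Prop :=
  0 < q ∧ q < 1 ∧ 0 < ρ ∧ ρ < 1 ∧ (s = 0 ∨ (s = 1 ∧ ρ = q))

/-- Conditional expectation of the last passage time given the visible variables. -/
noncomputable def gg (q ρ : ℝ) (s : ℕ) {n : ℕ} (y : V n → ℕ) : ℝ :=
  ∫ h, (Tc (Wt s y h) : ℝ) ∂(muH q ρ s n)

/-- Conditional probability that the slope is one. -/
noncomputable def pp (q ρ : ℝ) (s : ℕ) {n : ℕ} (y : V n → ℕ) (v : V n) (l : ℕ) : ℝ :=
  ∫ h, sl (Wt s y h) v l ∂(muH q ρ s n)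

/-- `φ_v(y)`. -/
noncomputable def ph (q ρ : ℝ) (s : ℕ) {n : ℕ} (y : V n → ℕ) (v : V n) : ℝ :=
  ∑ l ∈ Finset.range (y v + s), pp q ρ s y v l

/-- Deviation from the average over the variable `v`. -/
noncomputable def Dv (q : ℝ) {n : ℕ} (f : (V n → ℕ) → ℝ) (v : V n) (y : V n → ℕ) : ℝ :=
  f y - ∫ k, f (Function.update y v k) ∂(geoM q)

/-- Conditional expectation given the variables clipped at `L`. -/
noncomputable def gL (q ρ : ℝ) (s L : ℕ) {n : ℕ} (y : V n → ℕ) : ℝ :=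
  ∫ k, gg q ρ s (fun v => if y v < L then y v else L + k v) ∂(muY q n)

/-- Integrability and law of the weights. -/
def GLaw : Prop := ∀ q ρ : ℝ, ∀ s : ℕ, Par q ρ s → ∀ n : ℕ,
  IsProbabilityMeasure (muY q n) ∧ IsProbabilityMeasure (muH q ρ s n) ∧
  Measure.map (fun z : (V n → ℕ) × (V n → Bool × ℕ) => Wt s z.1 z.2)
    ((muY q n).prod (muH q ρ s n)) = muY q n ∧
  (∀ r : ℕ, Integrable (fun W : V n → ℕ => ((Tc W : ℕ) : ℝ) ^ r) (muY q n)) ∧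
  (∀ r : ℕ, Integrable (fun y : V n → ℕ => (∑ v, (y v : ℝ)) ^ r) (muY q n)) ∧
  (∀ y : V n → ℕ, |gg q ρ s y| ≤ ∑ v, (y v : ℝ) + n ^ 2 * (1 + mean q)) ∧
  MemLp (fun y : V n → ℕ => gg q ρ s y) 2 (muY q n)

/-- Energy bound. -/
def GEnergy : Prop := ∀ q ρ : ℝ, ∀ s : ℕ, Par q ρ s → ∀ n : ℕ,
  (∀ v, Integrable (fun y : V n → ℕ => (ph q ρ s y v) ^ 2) (muY q n)) ∧
  ∑ v, ∫ y, (ph q ρ s y v) ^ 2 ∂(muY q n) ≤
    1 / ((1 - q) * ρ * (1 - ρ)) * variance (fun W : V n → ℕ => (Tc W : ℝ)) (muY q n)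

/-- Block variances. -/
def GVar : Prop := ∀ q ρ : ℝ, ∀ s : ℕ, Par q ρ s → ∀ n : ℕ, ∀ v : V n,
  MemLp (fun y => Dv q (gg q ρ s) v y) 2 (muY q n) ∧
  ∫ y, (Dv q (gg q ρ s) v y) ^ 2 ∂(muY q n) ≤ ∫ y, (ph q ρ s y v) ^ 2 ∂(muY q n)

/-- Influences. -/
def GL1 : Prop := ∀ q ρ : ℝ, ∀ s : ℕ, Par q ρ s → ∀ n : ℕ, ∀ v : V n,
  ∫ y, |Dv q (gg q ρ s) v y| ∂(muY q n) ≤
    2 / q * cov[fun W : V n → ℕ => (Tc W : ℝ), fun W => (W v : ℝ); muY q n]

/-- Clipping the visible variables. -/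
def GTail : Prop := ∀ q : ℝ, 0 < q → q < 1 → ∃ C : ℝ, 0 < C ∧ ∀ ρ : ℝ, ∀ s : ℕ, Par q ρ s →
  ∀ n L : ℕ, MemLp (fun y : V n → ℕ => gL q ρ s L y) 2 (muY q n) ∧
  variance (fun y : V n → ℕ => gg q ρ s y) (muY q n) ≤
    variance (fun y : V n → ℕ => gL q ρ s L y) (muY q n)
    + C * ∫ y, ∑ v, (if L < y v then (pp q ρ s y v (y v + s - 1)) ^ 2 else 0) ∂(muY q n)

/-- Probability that the optimal path passes through `v` given the visible variables. -/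
noncomputable def Pp (q ρ : ℝ) (s : ℕ) {n : ℕ} (Γ : (V n → ℕ) → ℕ → V n) (y : V n → ℕ)
    (v : V n) : ℝ := (muH q ρ s n).real {h | Γ (Wt s y h) (lev v) = v}

/-- Path probabilities. -/
def GPath : Prop := ∀ q ρ : ℝ, ∀ s : ℕ, Par q ρ s → ∃ C : ℝ, 0 < C ∧ ∀ (n : ℕ)
  (Γ : (V n → ℕ) → ℕ → V n), Geod Γ →
  (∀ (y : V n → ℕ) (v : V n), 1 ≤ y v + s →
    ρ * pp q ρ s y v (y v + s - 1) ≤ Pp q ρ s Γ y v) ∧
  (∀ (y : V n → ℕ) (v : V n), 0 ≤ pp q ρ s y v (y v + s - 1)) ∧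
  ∑ v, ∫ y, (Pp q ρ s Γ y v) ^ 2 ∂(muY q n) ≤ C * ∑ v, ∫ y, (ph q ρ s y v) ^ 2 ∂(muY q n)

/-- Abstract path measures: one site per level, cone property. -/
structure PathM {n : ℕ} (P : V n → ℝ) : Prop where
  nn : ∀ v, 0 ≤ P v
  one : ∀ k, k + 1 < 2 * n → ∑ v, (if lev v = k then P v else 0) = 1
  cone : ∀ v l, l + 1 < 2 * n → P v ≤ ∑ v', (if lev v' = l ∧
    |((v'.1 : ℕ) : ℤ) - (v.1 : ℕ)| ≤ |(l : ℤ) - lev v| ∧
    |((v'.2 : ℕ) : ℤ) - (v.2 : ℕ)| ≤ |(l : ℤ) - lev v| then P v' else 0)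

/-- The path probabilities are a path measure. -/
def GPathM : Prop := ∀ q ρ : ℝ, ∀ s : ℕ, Par q ρ s → ∀ (n : ℕ)
  (Γ : (V n → ℕ) → ℕ → V n), Geod Γ → ∀ y, PathM (Pp q ρ s Γ y)

/-- Number of big sites close to `v'`. -/
noncomputable def near {n : ℕ} (Big : Finset (V n)) (R : ℕ) (v' : V n) : ℕ :=
  (Big.filter (fun v => |((v'.1 : ℕ) : ℤ) - (v.1 : ℕ)| ≤ R ∧
    |((v'.2 : ℕ) : ℤ) - (v.2 : ℕ)| ≤ R)).card

/-- Deterministic inequality for path measures. -/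
def GCone : Prop := ∀ (n R K : ℕ) (P : V n → ℝ) (Big : Finset (V n)), PathM P → R + 1 ≤ n →
  (∀ v', near Big R v' ≤ K) →
  (∑ v ∈ Big, (P v) ^ 2) * (∑ i ∈ Finset.range (R + 1), 1 / ((i : ℝ) + 1)) ≤
    K * ∑ v, (P v) ^ 2

/-- Big sites are sparse. -/
def GBad : Prop := ∀ q : ℝ, 0 < q → q < 1 → ∀ n L R K : ℕ,
  (muY q n).real {y | ∃ v', K < near (Finset.univ.filter (fun v => L < y v)) R v'} ≤
    (n : ℝ) ^ 2 * ((2 * (R : ℝ) + 1) ^ 2 * q ^ (L + 1)) ^ (K + 1)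

/-! ### the inequality of Falik and Samorodnitsky on finite products -/

/-- Expectation on a finite product. -/
noncomputable def fE {ι A : Type} [Fintype ι] [Fintype A] [DecidableEq ι] (w : A → ℝ)
    (f : (ι → A) → ℝ) : ℝ := ∑ x, (∏ i, w (x i)) * f x

/-- Deviation from the average over one coordinate. -/
noncomputable def fD {ι A : Type} [Fintype ι] [Fintype A] [DecidableEq ι] (w : A → ℝ)
    (f : (ι → A) → ℝ) (i : ι) (x : ι → A) : ℝ :=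
  f x - ∑ a, w a * f (Function.update x i a)

/-- Falik-Samorodnitsky inequality. -/
def FS : Prop := ∃ C : ℝ, 0 < C ∧ ∀ {ι A : Type} [Fintype ι] [Fintype A] [DecidableEq ι]
  (w : A → ℝ) (p₀ S : ℝ) (f : (ι → A) → ℝ), 0 < p₀ → (∀ a, p₀ ≤ w a) → ∑ a, w a = 1 → 0 < S →
  ∑ i, (fE w (fun x => |fD w f i x|)) ^ 2 ≤ S →
  0 < fE w (fun x => (f x - fE w f) ^ 2) →
  fE w (fun x => (f x - fE w f) ^ 2) * Real.log (fE w (fun x => (f x - fE w f) ^ 2) / S) ≤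
    C * (1 + Real.log (1 / p₀)) * ∑ i, fE w (fun x => (fD w f i x) ^ 2)

/-- Falik-Samorodnitsky for the clipped function. -/
def GFS : Prop := ∀ q : ℝ, 0 < q → q < 1 → ∃ C : ℝ, 0 < C ∧ ∀ ρ : ℝ, ∀ s : ℕ, Par q ρ s →
  ∀ n L : ℕ, ∀ S : ℝ, 0 < S →
  ∑ v, (∫ y, |Dv q (gg q ρ s) v y| ∂(muY q n)) ^ 2 ≤ S →
  0 < variance (fun y : V n → ℕ => gL q ρ s L y) (muY q n) →
  variance (fun y : V n → ℕ => gL q ρ s L y) (muY q n) *
    Real.log (variance (fun y : V n → ℕ => gL q ρ s L y) (muY q n) / S) ≤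
    C * ((L : ℝ) + 1) * ∑ v, ∫ y, (Dv q (gg q ρ s) v y) ^ 2 ∂(muY q n)

/-- The two inputs from the KPZ part. -/
def GKpz : Prop := ∀ q : ℝ, 0 < q → q < 1 → ∃ c C : ℝ, 0 < c ∧ 0 < C ∧ ∃ n₀ : ℕ, ∀ n ≥ n₀,
  c * (n : ℝ) ^ (2 / 3 : ℝ) ≤ variance (fun W : V n → ℕ => (Tc W : ℝ)) (muY q n) ∧
  ∑ v : V n, (cov[fun W : V n → ℕ => (Tc W : ℝ), fun W => (W v : ℝ); muY q n]) ^ 2
    ≤ C * (n : ℝ) ^ (3 / 5 : ℝ)

/-- Main theorem: the visible variables do not determine the fluctuations. -/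
def GMain : Prop := ∀ q ρ : ℝ, ∀ s : ℕ, Par q ρ s → ∀ ε : ℝ, 0 < ε → ∃ n₀ : ℕ, ∀ n ≥ n₀,
  variance (fun y : V n → ℕ => gg q ρ s y) (muY q n) ≤
    ε * variance (fun W : V n → ℕ => (Tc W : ℝ)) (muY q n)

end Pool.Agent.W533.LP
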