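import Pool.Agent.W533.LP.F2b

/-!
# From the main theorem to the frozen statement about hidden first bits
-/

set_option autoImplicit false
open scoped MeasureTheory

namespace Pool.Agent.W533.LP

/-- Final theorem for the hidden bits. -/
theorem f2 (hM : GMain) (hL : GLaw) :
  ∀ (p : ℝ), 0 < p → p < 1 →
  ∀ (Ω : Type) [MeasurableSpace Ω] (μ : MeasureTheory.Measure Ω)
    [MeasureTheory.IsProbabilityMeasure μ]
    (X : ℤ × ℤ → ℕ → Ω → ℝ),
    (∀ v i, Measurable (X v i)) →
    ProbabilityTheory.iIndepFun (fun vi : (ℤ × ℤ) × ℕ => X vi.1 vi.2) μ →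
    (∀ v i, μ {ω | X v i ω = 1} = ENNReal.ofReal p ∧
            μ {ω | X v i ω = 0} = ENNReal.ofReal (1 - p)) →
    ∀ T : ℕ → Ω → ℝ,
    (∀ n ω, T n ω =
      ⨆ s : {s : Fin (2 * n) → Bool // (Finset.univ.filter (fun j => s j = true)).card = n},
        ∑ k : Fin (2 * n + 1),
          ∑' i : ℕ, ∏ j ∈ Finset.range (i + 1),
            X (((Finset.univ.filter
                  (fun j : Fin (2 * n) => (j : ℕ) < (k : ℕ) ∧ s.1 j = true)).card : ℤ),
               (k : ℤ) - ((Finset.univ.filter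
                  (fun j : Fin (2 * n) => (j : ℕ) < (k : ℕ) ∧ s.1 j = true)).card : ℤ)) j ω) →
    Asymptotics.IsLittleO Filter.atTop
      (fun n => ProbabilityTheory.variance
        (μ[T n | ⨆ (v : ℤ × ℤ) (i : ℕ) (_ : 1 ≤ i),
            MeasurableSpace.comap (X v i) (inferInstance : MeasurableSpace ℝ)]) μ)
      (fun n => ProbabilityTheory.variance (T n) μ) := by
  intro p hp hp1 Ω mΩ μ hμ X hX hind hlaw T hT
  have hP : Par p p 1 := ⟨hp, hp1, hp, hp1, Or.inr ⟨rfl, rfl⟩⟩
  have hTae : ∀ n, T n =ᵐ[μ] fun ω => (Tc (Wt 1 (yy n X ω) (hh n X ω)) : ℝ) := by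
    intro n
    filter_upwards [ae_bit hX hp hp1 hlaw, ae_zero hX hp hp1 hind hlaw] with ω h01 hz
    rw [hT n ω]
    refine sup_path n (Wt 1 (yy n X ω) (hh n X ω))
      (fun u => ∑' i : ℕ, ∏ j ∈ Finset.range (i + 1), X u j ω) ?_
    intro v
    have h1 := tsum_lead (fun j => X (st v) j ω) (fun i => h01 (st v) i) (hz (st v))
    refine h1.trans ?_
    congr 1
    obtain ⟨e1, e2⟩ := hh_eq n X ω v
    unfold Wt
    by_cases hb : X (st v) 0 ω = 1
    · rw [if_pos hb, if_pos (e1.2 hb)]
      rfl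
    · rw [if_neg hb, if_neg (fun h => hb (e1.1 h)), e2]
  have hy : ∀ n, Measurable (yy n X) := fun n => yy_meas _ n X (fun v i _ => hX v i)
  have hh' : ∀ n, Measurable (hh n X) := fun n => hh_meas _ n X (fun v => hX v 0)
  have hlw := lawF2 hX hp hp1 hind hlaw
  have hmapy : ∀ n, μ.map (yy n X) = muY p (n + 1) := by
    intro n
    obtain ⟨hY, hH, -⟩ := hL p p 1 hP (n + 1)
    have h1 := congrArg (MeasureTheory.Measure.map Prod.fst) (hlw n)
    rw [MeasureTheory.Measure.map_map measurable_fst ((hy n).prodMk (hh' n)),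
      MeasureTheory.Measure.map_fst_prod, MeasureTheory.measure_univ, one_smul] at h1
    exact h1
  have hmaph : ∀ n, μ.map (hh n X) = muH p p 1 (n + 1) := by
    intro n
    obtain ⟨hY, hH, -⟩ := hL p p 1 hP (n + 1)
    have h1 := congrArg (MeasureTheory.Measure.map Prod.snd) (hlw n)
    rw [MeasureTheory.Measure.map_map measurable_snd ((hy n).prodMk (hh' n)),
      MeasureTheory.Measure.map_snd_prod, MeasureTheory.measure_univ, one_smul] at h1
    exact h1
  have hmapW : ∀ n, μ.map (fun ω => Wt 1 (yy n X ω) (hh n X ω)) = muY p (n + 1) := by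
    intro n
    obtain ⟨hY, hH, hlawn, -⟩ := hL p p 1 hP (n + 1)
    rw [← hlawn, ← hlw n, MeasureTheory.Measure.map_map Measurable.of_discrete
      ((hy n).prodMk (hh' n))]
    rfl
  have hmW : ∀ n, Measurable (fun ω => Wt 1 (yy n X ω) (hh n X ω)) := by
    intro n
    exact (Measurable.of_discrete (f := fun z : (V (n + 1) → ℕ) × (V (n + 1) → Bool × ℕ) =>
      Wt 1 z.1 z.2)).comp ((hy n).prodMk (hh' n))
  have hV2 : ∀ n, ProbabilityTheory.variance (T n) μ =
      ProbabilityTheory.variance (fun W : V (n + 1) → ℕ => (Tc W : ℝ)) (muY p (n + 1)) := by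
    intro n
    rw [ProbabilityTheory.variance_congr (hTae n), ← hmapW n,
      ProbabilityTheory.variance_map (Measurable.aemeasurable Measurable.of_discrete)
      (hmW n).aemeasurable]
    rfl
  have hi : ∀ n, MeasureTheory.Integrable
      (fun ω => (Tc (Wt 1 (yy n X ω) (hh n X ω)) : ℝ)) μ := by
    intro n
    obtain ⟨hY, hH, hlawn, hint, -⟩ := hL p p 1 hP (n + 1)
    have h1 := hint 1
    simp only [pow_one] at h1
    rw [← hmapW n] at h1
    have h2 := h1.comp_measurable (f := fun ω => Wt 1 (yy n X ω) (hh n X ω)) (hmW n)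
    exact h2
  have hI0 := ProbabilityTheory.indep_iSup_of_disjoint
      (m := fun vi : (ℤ × ℤ) × ℕ => MeasurableSpace.comap (X vi.1 vi.2) inferInstance)
      (fun vi => (hX vi.1 vi.2).comap_le) hind.iIndep
      (S := {vi | 1 ≤ vi.2}) (T := {vi | vi.2 = 0}) (by
        rw [Set.disjoint_left]
        intro vi h1 h2
        simp only [Set.mem_setOf_eq] at h1 h2
        omega)
  have hV1m : ∀ n (m : MeasurableSpace Ω), m ≤ mΩ → (@Measurable _ _ m _ (yy n X)) →
      ProbabilityTheory.Indep m (MeasurableSpace.comap (hh n X) inferInstance) μ →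
      ProbabilityTheory.variance (μ[T n | m]) μ =
        ProbabilityTheory.variance (fun y : V (n + 1) → ℕ => gg p p 1 y) (muY p (n + 1)) := by
    intro n m hm hym hind'
    have hcond : μ[T n | m] =ᵐ[μ] fun ω => gg p p 1 (yy n X ω) := by
      refine (MeasureTheory.condExp_congr_ae (hTae n)).trans ?_
      refine (condExp_ind hm μ (yy n X) hym (hh n X) (hh' n) hind'
        (fun z => (Tc (Wt 1 z.1 z.2) : ℝ)) Measurable.of_discrete (hi n)).trans ?_
      rw [hmaph n]
      rfl
    rw [ProbabilityTheory.variance_congr hcond, ← hmapy n]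
    have h9 := ProbabilityTheory.variance_map (μ := μ) (Measurable.aemeasurable
      (Measurable.of_discrete (f := fun y : V (n + 1) → ℕ => gg p p 1 y)))
      (hy n).aemeasurable
    rw [h9]
    rfl
  set m := ⨆ (v : ℤ × ℤ) (i : ℕ) (_ : 1 ≤ i),
            MeasurableSpace.comap (X v i) (inferInstance : MeasurableSpace ℝ) with hmdef
  have hm : m ≤ mΩ := by
    refine iSup_le fun v => iSup_le fun i => iSup_le fun _ => ?_
    exact (hX v i).comap_le
  have hXm : ∀ v i, 1 ≤ i → @Measurable Ω ℝ m _ (X v i) := by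
    intro v i hi
    rw [measurable_iff_comap_le]
    exact le_iSup_of_le v (le_iSup_of_le i (le_iSup_of_le hi le_rfl))
  have hindep : ∀ n, ProbabilityTheory.Indep m
      (MeasurableSpace.comap (hh n X) inferInstance) μ := by
    intro n
    refine ProbabilityTheory.indep_of_indep_of_le_left
      (ProbabilityTheory.indep_of_indep_of_le_right hI0 ?_) ?_
    · rw [← measurable_iff_comap_le]
      refine hh_meas _ n X (fun v => ?_)
      rw [measurable_iff_comap_le]
      exact le_iSup₂_of_le (f := fun (vi : (ℤ × ℤ) × ℕ) (_ : vi ∈ {vi : (ℤ × ℤ) × ℕ | vi.2 = 0}) =>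
        MeasurableSpace.comap (X vi.1 vi.2) inferInstance) (v, 0) rfl le_rfl
    · refine iSup_le fun v => iSup_le fun i => iSup_le fun hi => ?_
      exact le_iSup₂_of_le (f := fun (vi : (ℤ × ℤ) × ℕ) (_ : vi ∈ {vi : (ℤ × ℤ) × ℕ | 1 ≤ vi.2}) =>
        MeasurableSpace.comap (X vi.1 vi.2) inferInstance) (v, i) hi le_rfl
  have hV1 : ∀ n, ProbabilityTheory.variance (μ[T n | m]) μ =
      ProbabilityTheory.variance (fun y : V (n + 1) → ℕ => gg p p 1 y) (muY p (n + 1)) :=
    fun n => hV1m n m hm (yy_meas m n X hXm) (hindep n)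
  rw [Asymptotics.isLittleO_iff]
  intro c hc
  obtain ⟨n₀, hn₀⟩ := hM p p 1 hP c hc
  filter_upwards [Filter.eventually_ge_atTop n₀] with n hn
  rw [hV1, hV2, Real.norm_of_nonneg (ProbabilityTheory.variance_nonneg _ _),
    Real.norm_of_nonneg (ProbabilityTheory.variance_nonneg _ _)]
  exact hn₀ (n + 1) (by omega)

end Pool.Agent.W533.LP
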