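import Mathlib

/-!
# Geometric last passage percolation: definitions

`G I J W m n` is the last passage time from `(0,0)` to `(m,n)` with boundary weights `I` (on the
horizontal axis), `J` (on the vertical axis) and bulk weights `W i j` at the site `(i+1,j+1)`.
`T W m n` is the last passage time with zero boundary weights, that is the maximum over all
up-right paths in the box `[0,m) × [0,n)` of the sum of the weights `W`.
-/

namespace Pool.Agent.W533.LP

open MeasureTheory ProbabilityTheory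

/-! ### deterministic part -/

/-- Last passage recursion. -/
def G (I J : ℕ → ℕ) (W : ℕ → ℕ → ℕ) : ℕ → ℕ → ℕ
  | 0, 0 => 0
  | i + 1, 0 => G I J W i 0 + I i
  | 0, j + 1 => G I J W 0 j + J j
  | i + 1, j + 1 => max (G I J W i (j + 1)) (G I J W (i + 1) j) + W i j

/-- The zero boundary. -/
def zero : ℕ → ℕ := fun _ => 0

/-- Point to point last passage time of the box `[0,m) × [0,n)`. -/
def T (W : ℕ → ℕ → ℕ) (m n : ℕ) : ℕ := G zero zero W m n

/-- Shift of the environment. -/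
def sh (x y : ℕ) (W : ℕ → ℕ → ℕ) : ℕ → ℕ → ℕ := fun i j => W (i + x) (j + y)

/-- Rotation of the box `[0,m) × [0,n)` by 180 degrees (identity outside). -/
def rot (m n : ℕ) (W : ℕ → ℕ → ℕ) : ℕ → ℕ → ℕ :=
  fun i j => if i < m ∧ j < n then W (m - 1 - i) (n - 1 - j) else W i j

/-- Partial sums of boundary weights. -/
def ps (I : ℕ → ℕ) (k : ℕ) : ℕ := ∑ i ∈ Finset.range k, I i

/-- Raise the weight number `u` by `h`. -/
def bump (I : ℕ → ℕ) (u h : ℕ) : ℕ → ℕ := fun i => if i = u then I i + h else I i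

/-- Keep only the weights number `i < w`. -/
def cut (I : ℕ → ℕ) (w : ℕ) : ℕ → ℕ := fun i => if i < w then I i else 0

/-- Monotonicity: in the partial sums of the boundary weights and in the bulk weights. -/
def DMono : Prop := ∀ (I I' J J' : ℕ → ℕ) (W W' : ℕ → ℕ → ℕ),
  (∀ k, ps I k ≤ ps I' k) → (∀ k, ps J k ≤ ps J' k) → (∀ i j, W i j ≤ W' i j) →
  ∀ m n, G I J W m n ≤ G I' J' W' m n

/-- `G` is the maximum of the horizontal and the vertical exits. -/
def DMax : Prop := ∀ (I J : ℕ → ℕ) (W : ℕ → ℕ → ℕ) (m n : ℕ),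
  G I J W m n = max (G I zero W m n) (G zero J W m n)

/-- Attractiveness, several steps at once. -/
def DAttr : Prop := ∀ (I I' J J' : ℕ → ℕ) (W : ℕ → ℕ → ℕ),
  (∀ i, I i ≤ I' i) → (∀ j, J' j ≤ J j) → ∀ m n k,
  (G I J W (m + k) n + G I' J' W m n ≤ G I' J' W (m + k) n + G I J W m n) ∧
  (G I' J' W m (n + k) + G I J W m n ≤ G I J W m (n + k) + G I' J' W m n)

/-- Dependence on one horizontal boundary weight: slope `0` or `1`, and once the slope is `1`
it stays `1`. -/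
def DSlope : Prop := ∀ (I J : ℕ → ℕ) (W : ℕ → ℕ → ℕ) (u m n : ℕ),
  (∀ h, G I J W m n ≤ G (bump I u h) J W m n ∧ G (bump I u h) J W m n ≤ G I J W m n + h) ∧
  (G (bump I u 1) J W m n = G I J W m n + 1 → ∀ h, G (bump I u h) J W m n = G I J W m n + h)

/-- The slope is monotone in the boundary weights. -/
def DSlopeMono : Prop := ∀ (I I' J J' : ℕ → ℕ) (W : ℕ → ℕ → ℕ) (u m n : ℕ),
  (∀ i, I i ≤ I' i) → (∀ j, J' j ≤ J j) →
  G (bump I u 1) J W m n = G I J W m n + 1 → G (bump I' u 1) J' W m n = G I' J' W m n + 1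

/-- The basic inclusion of the coupling method. -/
def DIncl : Prop := ∀ (I I' J J' : ℕ → ℕ) (W : ℕ → ℕ → ℕ) (u m n : ℕ),
  (∀ i, I i ≤ I' i) → (∀ j, J' j ≤ J j) → G (bump I u 1) J W m n = G I J W m n + 1 →
  G I J W m n + (ps I' (u + 1) - ps I (u + 1)) ≤ G I' J' W m n

/-- If neither `I w` nor `J w` matters then only the first `w` weights matter. -/
def DCut : Prop := ∀ (I J : ℕ → ℕ) (W : ℕ → ℕ → ℕ) (w m n : ℕ),
  G (bump I w 1) J W m n = G I J W m n → G I (bump J w 1) W m n = G I J W m n →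
  G I J W m n ≤ max (G (cut I w) zero W m n) (G zero (cut J w) W m n)

/-- Rotation by 180 degrees. -/
def DRot : Prop := ∀ (W : ℕ → ℕ → ℕ) (m n x y : ℕ), x ≤ m → y ≤ n →
  T (rot m n W) (m - x) (n - y) = T (sh x y W) (m - x) (n - y)

/-- Transposition. -/
def DTransp : Prop := ∀ (I J : ℕ → ℕ) (W : ℕ → ℕ → ℕ) (m n : ℕ),
  G I J W m n = G J I (fun i j => W j i) n m

/-- Decomposition at the row `M`: upper bound by one crossing, lower bound by all. -/
def DRow : Prop := ∀ (W : ℕ → ℕ → ℕ) (m M H : ℕ), 1 ≤ m → 1 ≤ M → 1 ≤ H →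
  (∀ z < m, T W (z + 1) M + T (sh z M W) (m - z) H ≤ T W m (M + H)) ∧
  (∃ z < m, T W m (M + H) = T W (z + 1) M + T (sh z M W) (m - z) H)

/-- Exits from the horizontal axis. -/
def DExit : Prop := ∀ (I J : ℕ → ℕ) (W : ℕ → ℕ → ℕ) (m n : ℕ), 1 ≤ n →
  (∀ z < m, ps I (z + 1) + T (sh z 0 W) (m - z) n ≤ G I J W m n) ∧
  (∀ w, 1 ≤ w → 1 ≤ m → ∃ z < m, z < w ∧
    G (cut I w) zero W m n ≤ ps I (z + 1) + T (sh z 0 W) (m - z) n)

/-- Crossing: increments from a starting point further to the right are larger. -/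
def DCross : Prop := ∀ (W : ℕ → ℕ → ℕ) (x a s n : ℕ),
  T (sh x 0 W) a n + T W (x + a + s) n ≤ T (sh x 0 W) (a + s) n + T W (x + a) n

/-- Sandwich for the increments of `T`. -/
def DSand : Prop := ∀ (I J : ℕ → ℕ) (W : ℕ → ℕ → ℕ) (m n : ℕ),
  (G zero J W m n ≤ G I zero W m n → ∀ k,
    T W (m + k) n + G I J W m n ≤ G I J W (m + k) n + T W m n) ∧
  (G I zero W m n ≤ G zero J W m n → ∀ k ≤ m,
    G I J W m n + T W (m - k) n ≤ T W m n + G I J W (m - k) n)

/-! ### independent geometric variables -/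

/-- `X i` are independent, `X i` is geometric: `P(X i = k) = (1 - p i) (p i)^k`, `k = 0,1,…`. -/
structure GeoFam {Ω ι : Type} [MeasurableSpace Ω] (μ : Measure Ω) (p : ι → ℝ)
    (X : ι → Ω → ℕ) : Prop where
  prob : IsProbabilityMeasure μ
  pos : ∀ i, 0 ≤ p i ∧ p i < 1
  meas : ∀ i, Measurable (X i)
  indep : iIndepFun X μ
  law : ∀ i k, μ.real {ω | X i ω = k} = (1 - p i) * (p i) ^ k

/-- Mean of the geometric law. -/
noncomputable def mean (a : ℝ) : ℝ := a / (1 - a)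

/-- Variance of the geometric law. -/
noncomputable def vari (a : ℝ) : ℝ := a / (1 - a) ^ 2

/-- Parameters of a system with spectators: horizontal boundary `a`, vertical boundary `b`,
bulk `q`, spectators `c`. -/
def par {κ : Type} (q a b : ℝ) (c : κ → ℝ) : ℕ ⊕ ℕ ⊕ (ℕ × ℕ) ⊕ κ → ℝ
  | Sum.inl _ => a
  | Sum.inr (Sum.inl _) => b
  | Sum.inr (Sum.inr (Sum.inl _)) => q
  | Sum.inr (Sum.inr (Sum.inr k)) => c k

/-- All variables of a system with spectators. -/
def fam {Ω κ : Type} (I J : ℕ → Ω → ℕ) (W : ℕ → ℕ → Ω → ℕ) (X : κ → Ω → ℕ) :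
    ℕ ⊕ ℕ ⊕ (ℕ × ℕ) ⊕ κ → Ω → ℕ
  | Sum.inl i => I i
  | Sum.inr (Sum.inl j) => J j
  | Sum.inr (Sum.inr (Sum.inl v)) => W v.1 v.2
  | Sum.inr (Sum.inr (Sum.inr k)) => X k

/-- Stationary system with parameter `a`: horizontal weights geometric `a`, vertical weights
geometric `q / a`, bulk geometric `q`, and independent spectators `X` geometric `c`. -/
def Sys {Ω κ : Type} [MeasurableSpace Ω] (μ : Measure Ω) (q a : ℝ) (I J : ℕ → Ω → ℕ)
    (W : ℕ → ℕ → Ω → ℕ) (c : κ → ℝ) (X : κ → Ω → ℕ) : Prop :=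
  GeoFam μ (par q a (q / a) c) (fam I J W X)

/-- Stationary system without spectators. -/
def Sys0 {Ω : Type} [MeasurableSpace Ω] (μ : Measure Ω) (q a : ℝ) (I J : ℕ → Ω → ℕ)
    (W : ℕ → ℕ → Ω → ℕ) : Prop :=
  Sys μ q a I J W (fun _ : Empty => (0 : ℝ)) (fun _ _ => 0)

/-- Bulk weights. -/
def Bulk {Ω : Type} [MeasurableSpace Ω] (μ : Measure Ω) (q : ℝ) (W : ℕ → ℕ → Ω → ℕ) : Prop :=
  GeoFam μ (fun _ : ℕ × ℕ => q) (fun v => W v.1 v.2)

/-- `G` as a random variable. -/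
def Gr {Ω : Type} (I J : ℕ → Ω → ℕ) (W : ℕ → ℕ → Ω → ℕ) (m n : ℕ) (ω : Ω) : ℕ :=
  G (fun i => I i ω) (fun j => J j ω) (fun i j => W i j ω) m n

/-- `T` as a random variable. -/
def Tr {Ω : Type} (W : ℕ → ℕ → Ω → ℕ) (m n : ℕ) (ω : Ω) : ℕ :=
  T (fun i j => W i j ω) m n

/-- Bulk with the environment shifted. -/
def shr {Ω : Type} (x y : ℕ) (W : ℕ → ℕ → Ω → ℕ) : ℕ → ℕ → Ω → ℕ :=
  fun i j => W (i + x) (j + y)

/-- Zero boundary as a random variable. -/
def zr {Ω : Type} : ℕ → Ω → ℕ := fun _ _ => 0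

/-- Horizontal increments `N i` on the row `n` (natural subtraction, `G` is monotone). -/
def Ninc {Ω : Type} (I J : ℕ → Ω → ℕ) (W : ℕ → ℕ → Ω → ℕ) (n i : ℕ) (ω : Ω) : ℕ :=
  Gr I J W (i + 1) n ω - Gr I J W i n ω

/-- Vertical increments `E j` on the column `m`. -/
def Einc {Ω : Type} (I J : ℕ → Ω → ℕ) (W : ℕ → ℕ → Ω → ℕ) (m j : ℕ) (ω : Ω) : ℕ :=
  Gr I J W m (j + 1) ω - Gr I J W m j ω

/-- The event that raising `I u` by one raises `G m n`. -/
def Hs {Ω : Type} (I J : ℕ → Ω → ℕ) (W : ℕ → ℕ → Ω → ℕ) (u m n : ℕ) : Set Ω :=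
  {ω | G (bump (fun i => I i ω) u 1) (fun j => J j ω) (fun i j => W i j ω) m n
    = Gr I J W m n ω + 1}

/-- The event that raising `J u` by one raises `G m n`. -/
def Vs {Ω : Type} (I J : ℕ → Ω → ℕ) (W : ℕ → ℕ → Ω → ℕ) (u m n : ℕ) : Set Ω :=
  {ω | G (fun i => I i ω) (bump (fun j => J j ω) u 1) (fun i j => W i j ω) m n
    = Gr I J W m n ω + 1}

/-- Half width of the window of admissible parameters around `√q`. -/
noncomputable def dd (q : ℝ) : ℝ := min (Real.sqrt q - q) (1 - Real.sqrt q) / 4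

end Pool.Agent.W533.LP
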