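import Pool.Agent.W533.LP.F1
import Pool.Agent.W533.LP.F2
import Pool.Agent.W589.LP.D1
import Pool.Agent.W589.LP.D2
import Pool.Agent.W370.LP.Paths
import Pool.Agent.W948.LP.D4
import Pool.Agent.W692.LP.A
import Pool.Agent.W335.LP.Cpl
import Pool.Agent.W634.LP.Burke
import Pool.Agent.W990.LP.Mom
import Pool.Agent.W154.LP.Chern
import Pool.Agent.W166.LP.Kol
import Pool.Agent.W179.LP.VarId
import Pool.Agent.W576.LP.VarCmp
import Pool.Agent.W925.LP.T1
import Pool.Agent.W85.LP.VB
import Pool.Agent.W654.LP.Exit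
import Pool.Agent.W346.LP.SW
import Pool.Agent.W346.LP.EX
import Pool.Agent.W853.LP.FB
import Pool.Agent.W575.LP.Loc
import Pool.Agent.W991.LP.Inc
import Pool.Agent.W381.LP.Ac
import Pool.Agent.W922.LP.LB
import Pool.Agent.W74.LP.QV
import Pool.Agent.W407.LP.SS
import Pool.Agent.W45.LP.G0
import Pool.Agent.W140.LP.GenC
import Pool.Agent.W230.LP.GVar
import Pool.Agent.W977.LP.GTail
import Pool.Agent.W143.LP.GP
import Pool.Agent.W315.LP.G5
import Pool.Agent.W912.LP.FS2
import Pool.Agent.W428.LP.GeoFS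
import Pool.Agent.W612.LQ.Main
import Pool.Agent.W999.LP.GK
import Pool.Agent.W56.LP.GT

/-!
# Noise sensitivity of geometric last passage percolation: assembly
-/

set_option autoImplicit false

namespace Pool.Agent.W533.LP

theorem allKpz : GKpz := by
  have dSl : DSl := W948.LP.D4.dSl W370.LP.dChain
  have dGeod : DGeod := W948.LP.D4.dGeod W370.LP.dChain
  have dCross : DCross := W370.LP.dCross W589.LP.dAttr
  have burke : PBurke := W634.LP.pBurke W692.LP.pBlock
  have mom : PMom := W990.LP.Mom.pMom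
  have varId : PVarId := W179.LP.pVarId W692.LP.aMeas W692.LP.aOps W589.LP.dTransp W589.LP.dSlope mom burke
  have varCmp : PVarCmp := W576.LP.pVarCmp varId W335.LP.pCouple W692.LP.aLaw W589.LP.dSlopeMono
    W589.LP.dTransp W692.LP.aMeas mom
  have t1 : PT1 := W925.LP.pT1 varId varCmp W335.LP.pCouple W692.LP.aLaw mom W589.LP.dIncl W692.LP.aMeas
  have vb : PVB := W85.LP.VB.pVB t1 varId mom
  have sw : PSW := W346.LP.pSW vb varId W335.LP.pCouple W692.LP.aLaw W589.LP.dMax W589.LP.dMono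
    W589.LP.dTransp W692.LP.aMeas W692.LP.aOps
  have exx : PEX := W346.LP.pEX burke W154.LP.pChern W335.LP.pCouple W692.LP.aLaw W589.LP.dMax
    W589.LP.dMono W589.LP.dTransp W692.LP.aMeas W692.LP.aOps
  have ext : PExit := W654.LP.pExit t1 vb W589.LP.dTransp W692.LP.aOps
  have kol : PKol := W166.LP.Kol.pKol mom
  have gt : PGT := W56.LP.GT.pGT ext sw burke kol mom W692.LP.pTransfer W692.LP.aSys W692.LP.aOps
    W692.LP.aMeas W589.LP.dCut W589.LP.dSlope W370.LP.dExit W370.LP.dRot W589.LP.dSand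
    W589.LP.dTransp
  have fb : PFB := W853.LP.pFB gt vb varId W335.LP.pCouple mom W692.LP.aLaw W692.LP.aMeas
    W370.LP.dExit
  have loc : PLoc := W575.LP.Loc.pLoc fb sw burke W692.LP.pTransfer W692.LP.pExist W692.LP.aSys
    W692.LP.aOps W692.LP.aMeas W589.LP.dSand W370.LP.dRot
  have inc : PInc := W991.LP.pInc sw burke mom W692.LP.aMeas W692.LP.aSys W692.LP.aLawB
    W589.LP.dSand dCross
  have ac : PAc := W381.LP.pAc sw burke W990.LP.Mom.pAnti W692.LP.aSys W692.LP.aLawB W692.LP.aOps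
    W692.LP.aMeas W589.LP.dSand
  have lb : PLB := W922.LP.Lb.pLB loc inc ac W370.LP.dRow dCross W370.LP.dRot W692.LP.aMeas
    W692.LP.aLawB W692.LP.pExist W692.LP.aOps mom
  have qv : PQV := W74.LP.pQV exx burke mom W692.LP.aSys W692.LP.aLawB W692.LP.aOps W692.LP.aMeas
    W589.LP.dSand
  have ss : PSS := W407.LP.pSS qv W370.LP.dRot W589.LP.dTransp dSl dGeod W692.LP.aMeas W692.LP.aLawB
    W692.LP.aOps
  exact W999.LP.gKpz lb ss W692.LP.pExist

theorem allMain (hK : GKpz) : GMain := by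
  have dSl : DSl := W948.LP.D4.dSl W370.LP.dChain
  have dGeod : DGeod := W948.LP.D4.dGeod W370.LP.dChain
  have law : GLaw := W45.LPG0.gLaw
  have gVar : GVar := W230.LP.gVar law dSl W370.LP.dChain
  have gL1 : GL1 := W230.LP.gL1 law dSl W370.LP.dChain
  exact W612.LQ.gMain hK law (W140.LP.gEnergy law dSl) gVar gL1
    (W977.LP.gTail law dSl) (W143.LP.gPath law dSl) (W143.LP.gPathM law) W315.LP.gCone
    W315.LP.gBad (W428.LP.GeoFS.gFS W912.LP.fs law gVar) dGeod

end Pool.Agent.W533.LP
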