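import Pool.Agent.W533.LP.Stm2

/-!
# Noise sensitivity: from the main theorem to the frozen statement about resampling
-/

set_option autoImplicit false

namespace Pool.Agent.W533.LP

open MeasureTheory ProbabilityTheory

/-- Cauchy-Schwarz for covariances. -/
lemma cov_sq_le {Ω : Type*} [MeasurableSpace Ω] {μ : Measure Ω} [IsProbabilityMeasure μ]
    {X Y : Ω → ℝ} (hX : MemLp X 2 μ) (hY : MemLp Y 2 μ) :
    cov[X, Y; μ] ^ 2 ≤ Var[X; μ] * Var[Y; μ] := by
  have key : ∀ t : ℝ, 0 ≤ Var[X; μ] * (t * t) + (2 * cov[X, Y; μ]) * t + Var[Y; μ] := by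
    intro t
    have h1 : 0 ≤ Var[t • X + Y; μ] := variance_nonneg _ _
    have hm : MemLp (t • X) 2 μ := hX.const_smul t
    have h2 : Var[t • X + Y; μ] = Var[X; μ] * (t * t) + (2 * cov[X, Y; μ]) * t + Var[Y; μ] := by
      rw [← covariance_self (hm.add hY).aemeasurable]
      rw [covariance_add_left hm hY (hm.add hY), covariance_add_right hm hm hY,
        covariance_add_right hY hm hY, covariance_smul_left, covariance_smul_right,
        covariance_smul_left, covariance_smul_right, covariance_self hX.aemeasurable,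
        covariance_self hY.aemeasurable, covariance_comm Y X]
      ring
    linarith
  have := discrim_le_zero key
  rw [discrim] at this
  nlinarith

lemma geo_eq (p : ℝ) (hp : 0 < p) (hp1 : p < 1) :
    (geometricPMF hp hp1.le).toMeasure = geoM (1 - p) := by
  refine Measure.ext_of_singleton fun k => ?_
  rw [PMF.toMeasure_apply_singleton _ _ (MeasurableSet.singleton k)]
  show ENNReal.ofReal (geometricPMFReal p k) = _
  unfold geoM geometricPMFReal
  rw [Measure.sum_apply _ (MeasurableSet.singleton k)]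
  rw [tsum_eq_single k]
  · simp [mul_comm]
  · intro b hb
    simp [hb]

lemma geoM_prob (q : ℝ) (hq : 0 < q) (hq1 : q < 1) : IsProbabilityMeasure (geoM q) := by
  have h1 : (0 : ℝ) < 1 - q := by linarith
  have h2 : 1 - q < 1 := by linarith
  have h := geo_eq (1 - q) h1 h2
  have h3 : geoM (1 - (1 - q)) = geoM q := by congr 1; ring
  rw [← h3, ← h]
  infer_instance

lemma pairLaw (q ρ : ℝ) (hq : 0 < q) (hq1 : q < 1) (hρ : 0 < ρ) (hρ1 : ρ < 1) :
    (Real.toNNReal ρ) • Measure.map (fun a : ℕ => (a, a)) (geoM q) +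
      (Real.toNNReal (1 - ρ)) • Measure.prod (geoM q) (geoM q) =
    Measure.map (fun z : ℕ × (Bool × ℕ) => (z.1, if z.2.1 then z.1 + 0 else z.2.2))
      ((geoM q).prod (hM q ρ 0)) := by
  haveI := geoM_prob q hq hq1
  refine Measure.ext_of_lintegral _ fun f hf => ?_
  rw [lintegral_map hf Measurable.of_discrete]
  rw [lintegral_add_measure, lintegral_smul_measure, lintegral_smul_measure,
    lintegral_map hf Measurable.of_discrete]
  have hd : hM q ρ 0 = (ENNReal.ofReal ρ • Measure.dirac true +
      ENNReal.ofReal (1 - ρ) • Measure.dirac false).prod (geoM q) := by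
    simp [hM]
  haveI : SFinite (hM q ρ 0) := by rw [hd]; infer_instance
  rw [lintegral_prod _ (by fun_prop), lintegral_prod _ (by fun_prop)]
  have h1 : ∀ a : ℕ, ∫⁻ b : Bool × ℕ, f (a, if b.1 = true then a + 0 else b.2) ∂(hM q ρ 0) =
      ENNReal.ofReal ρ * f (a, a) + ENNReal.ofReal (1 - ρ) * ∫⁻ b, f (a, b) ∂(geoM q) := by
    intro a
    rw [hd, lintegral_prod _ (by exact Measurable.aemeasurable Measurable.of_discrete)]
    rw [lintegral_add_measure, lintegral_smul_measure, lintegral_smul_measure,
      lintegral_dirac, lintegral_dirac]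
    simp
  simp only [h1]
  rw [lintegral_add_left Measurable.of_discrete, lintegral_const_mul _ Measurable.of_discrete,
    lintegral_const_mul _ Measurable.of_discrete]
  rfl

/-- The pair law. -/
noncomputable def prM (q ρ : ℝ) : Measure (ℕ × ℕ) :=
  (Real.toNNReal ρ) • Measure.map (fun a : ℕ => (a, a)) (geoM q) +
      (Real.toNNReal (1 - ρ)) • Measure.prod (geoM q) (geoM q)

lemma hM_prob (q ρ : ℝ) (s : ℕ) (hq : 0 < q) (hq1 : q < 1) (hρ : 0 < ρ) (hρ1 : ρ < 1) :
    IsProbabilityMeasure (hM q ρ s) := by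
  have h0 := geoM_prob q hq hq1
  have h1 : IsProbabilityMeasure (ENNReal.ofReal ρ • Measure.dirac true +
      ENNReal.ofReal (1 - ρ) • Measure.dirac false : Measure Bool) := by
    constructor
    simp only [Measure.coe_add, Measure.coe_smul, Pi.add_apply, Pi.smul_apply, measure_univ,
      smul_eq_mul, mul_one]
    rw [← ENNReal.ofReal_add hρ.le (by linarith)]
    simp
  unfold hM
  split_ifs
  · infer_instance
  · infer_instance

lemma piLaw (q ρ : ℝ) (n : ℕ) (hq : 0 < q) (hq1 : q < 1) (hρ : 0 < ρ) (hρ1 : ρ < 1) :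
    Measure.pi (fun _ : V n => prM q ρ) =
      Measure.map (fun z : (V n → ℕ) × (V n → Bool × ℕ) => fun v => (z.1 v, Wt 0 z.1 z.2 v))
        ((muY q n).prod (muH q ρ 0 n)) := by
  have h0 := geoM_prob q hq hq1
  have h1 := hM_prob q ρ 0 hq hq1 hρ hρ1
  have hmp := measurePreserving_arrowProdEquivProdArrow ℕ (Bool × ℕ) (V n)
    (fun _ => geoM q) (fun _ => hM q ρ 0)
  unfold muY muH
  rw [← hmp.map_eq]
  rw [Measure.map_map Measurable.of_discrete hmp.measurable]
  have h2 := pairLaw q ρ hq hq1 hρ hρ1
  have h3 : prM q ρ = Measure.map (fun z : ℕ × (Bool × ℕ) =>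
      (z.1, if z.2.1 then z.1 + 0 else z.2.2)) ((geoM q).prod (hM q ρ 0)) := h2
  rw [h3]
  have hpp : IsProbabilityMeasure (Measure.map (fun z : ℕ × (Bool × ℕ) =>
      (z.1, if z.2.1 then z.1 + 0 else z.2.2)) ((geoM q).prod (hM q ρ 0))) :=
    Measure.isProbabilityMeasure_map (Measurable.aemeasurable Measurable.of_discrete)
  rw [← Measure.pi_map_pi (fun _ => Measurable.aemeasurable Measurable.of_discrete)]
  rfl

/-- The correlation of the two passage times. -/
lemma cor_le (hL : GLaw) (q ρ : ℝ) (n : ℕ) (hP : Par q ρ 0) (ε : ℝ) (hε : 0 ≤ ε)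
    (hv : variance (fun y : V n → ℕ => gg q ρ 0 y) (muY q n) ≤
      ε * variance (fun W : V n → ℕ => (Tc W : ℝ)) (muY q n))
    (hpos : 0 < variance (fun W : V n → ℕ => (Tc W : ℝ)) (muY q n)) :
    |cov[fun w : V n → ℕ × ℕ => (Tc (fun v => (w v).1) : ℝ), fun w => (Tc (fun v => (w v).2) : ℝ);
      Measure.pi (fun _ : V n => prM q ρ)] /
      Real.sqrt (variance (fun w : V n → ℕ × ℕ => (Tc (fun v => (w v).1) : ℝ))
        (Measure.pi (fun _ : V n => prM q ρ)) *
        variance (fun w : V n → ℕ × ℕ => (Tc (fun v => (w v).2) : ℝ))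
        (Measure.pi (fun _ : V n => prM q ρ)))| ≤ Real.sqrt ε := by
  obtain ⟨hq, hq1, hρ, hρ1, -⟩ := hP
  obtain ⟨hY, hH, hlaw, hint, -, -, hgg⟩ := hL q ρ 0 ⟨hq, hq1, hρ, hρ1, Or.inl rfl⟩ n
  have hmap := piLaw q ρ n hq hq1 hρ hρ1
  set P := (muY q n).prod (muH q ρ 0 n) with hPdef
  set A : (V n → ℕ) × (V n → Bool × ℕ) → ℝ := fun z => (Tc z.1 : ℝ) with hA
  set B : (V n → ℕ) × (V n → Bool × ℕ) → ℝ := fun z => (Tc (Wt 0 z.1 z.2) : ℝ) with hB
  have hfst : Measure.map Prod.fst P = muY q n := by
    rw [hPdef, Measure.map_fst_prod]; simp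
  have hTc2 : MemLp (fun W : V n → ℕ => (Tc W : ℝ)) 2 (muY q n) := by
    rw [memLp_two_iff_integrable_sq (Measurable.aestronglyMeasurable Measurable.of_discrete)]
    exact hint 2
  have hA2 : MemLp A 2 P := by
    have : A = (fun W : V n → ℕ => (Tc W : ℝ)) ∘ Prod.fst := rfl
    rw [this, ← memLp_map_measure_iff (Measurable.aestronglyMeasurable Measurable.of_discrete)
      measurable_fst.aemeasurable, hfst]
    exact hTc2
  have hB2 : MemLp B 2 P := by
    have : B = (fun W : V n → ℕ => (Tc W : ℝ)) ∘ (fun z => Wt 0 z.1 z.2) := rfl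
    rw [this, ← memLp_map_measure_iff (Measurable.aestronglyMeasurable Measurable.of_discrete)
      (Measurable.aemeasurable Measurable.of_discrete), hlaw]
    exact hTc2
  have hVA : Var[A; P] = variance (fun W : V n → ℕ => (Tc W : ℝ)) (muY q n) := by
    have : A = (fun W : V n → ℕ => (Tc W : ℝ)) ∘ Prod.fst := rfl
    rw [this, ← variance_map (Measurable.aemeasurable Measurable.of_discrete)
      measurable_fst.aemeasurable, hfst]
  have hVB : Var[B; P] = variance (fun W : V n → ℕ => (Tc W : ℝ)) (muY q n) := by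
    have : B = (fun W : V n → ℕ => (Tc W : ℝ)) ∘ (fun z => Wt 0 z.1 z.2) := rfl
    rw [this, ← variance_map (Measurable.aemeasurable Measurable.of_discrete)
      (Measurable.aemeasurable Measurable.of_discrete), hlaw]
  have hcov : cov[A, B; P] = cov[fun W : V n → ℕ => (Tc W : ℝ), fun y => gg q ρ 0 y; muY q n] := by
    rw [covariance_eq_sub hA2 hB2, covariance_eq_sub hTc2 hgg]
    have hi : Integrable (A * B) P := hA2.integrable_mul hB2
    have hiB : Integrable B P := hB2.integrable (by norm_num)
    have e1 : ∫ z, (A * B) z ∂P = ∫ y, ((fun W : V n → ℕ => (Tc W : ℝ)) *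
        (fun y : V n → ℕ => gg q ρ 0 y) : (V n → ℕ) → ℝ) y ∂(muY q n) := by
      rw [hPdef, integral_prod _ hi]
      refine integral_congr_ae (Filter.Eventually.of_forall fun y => ?_)
      simp only [Pi.mul_apply, hA, hB]
      rw [integral_const_mul]
      rfl
    have e2 : ∫ z, B z ∂P = ∫ y, gg q ρ 0 y ∂(muY q n) := by
      rw [hPdef, integral_prod _ hiB]
      rfl
    have e3 : ∫ z, A z ∂P = ∫ W, (Tc W : ℝ) ∂(muY q n) := by
      rw [← hfst, integral_map measurable_fst.aemeasurable
        (Measurable.aestronglyMeasurable Measurable.of_discrete)]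
    rw [e1, e2, e3]
  rw [hmap]
  have hZ : AEMeasurable (fun z : (V n → ℕ) × (V n → Bool × ℕ) =>
      fun v => (z.1 v, Wt 0 z.1 z.2 v)) P := Measurable.aemeasurable Measurable.of_discrete
  rw [covariance_map (Measurable.aestronglyMeasurable Measurable.of_discrete)
    (Measurable.aestronglyMeasurable Measurable.of_discrete) hZ,
    variance_map (Measurable.aemeasurable Measurable.of_discrete) hZ,
    variance_map (Measurable.aemeasurable Measurable.of_discrete) hZ]
  have c1 : (fun w : V n → ℕ × ℕ => (Tc (fun v => (w v).1) : ℝ)) ∘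
      (fun z : (V n → ℕ) × (V n → Bool × ℕ) => fun v => (z.1 v, Wt 0 z.1 z.2 v)) = A := rfl
  have c2 : (fun w : V n → ℕ × ℕ => (Tc (fun v => (w v).2) : ℝ)) ∘
      (fun z : (V n → ℕ) × (V n → Bool × ℕ) => fun v => (z.1 v, Wt 0 z.1 z.2 v)) = B := rfl
  rw [c1, c2, hVA, hVB, hcov, Real.sqrt_mul_self hpos.le]
  set Vt := variance (fun W : V n → ℕ => (Tc W : ℝ)) (muY q n)
  have hcs := cov_sq_le hTc2 hgg
  set c := cov[fun W : V n → ℕ => (Tc W : ℝ), fun y => gg q ρ 0 y; muY q n]
  rw [abs_div, abs_of_pos hpos, div_le_iff₀ hpos]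
  refine abs_le_of_sq_le_sq' ?_ (by positivity) |> fun h => abs_le.mpr h
  rw [mul_pow, Real.sq_sqrt hε]
  calc c ^ 2 ≤ Vt * variance (fun y : V n → ℕ => gg q ρ 0 y) (muY q n) := hcs
    _ ≤ Vt * (ε * Vt) := by gcongr
    _ = ε * Vt ^ 2 := by ring

end Pool.Agent.W533.LP

open Classical MeasureTheory ProbabilityTheory Filter

namespace Pool.Agent.W533.LP

/-- Final theorem for the site resampling. -/
theorem f1 (hM : GMain) (hL : GLaw) (hK : GKpz) (hC : DChain) :
    ∀ p : ℝ, ∀ hp : 0 < p, ∀ hp1 : p < 1, ∀ t : ℝ, 0 < t →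
      Tendsto
        (fun n : ℕ =>
          covariance
              (fun ω : Fin n × Fin n → ℕ × ℕ =>
                (((Finset.univ.filter (fun S : Finset (Fin n × Fin n) =>
                    IsChain (· ≤ ·) (S : Set (Fin n × Fin n)))).sup
                    (fun S => ∑ v ∈ S, (ω v).1) : ℕ) : ℝ))
              (fun ω : Fin n × Fin n → ℕ × ℕ =>
                (((Finset.univ.filter (fun S : Finset (Fin n × Fin n) =>
                    IsChain (· ≤ ·) (S : Set (Fin n × Fin n)))).sup
                    (fun S => ∑ v ∈ S, (ω v).2) : ℕ) : ℝ))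
              (Measure.pi (fun _ : Fin n × Fin n =>
                (Real.toNNReal (Real.exp (-t))) •
                    Measure.map (fun a : ℕ => (a, a)) (geometricPMF hp hp1.le).toMeasure +
                  (Real.toNNReal (1 - Real.exp (-t))) •
                    Measure.prod (geometricPMF hp hp1.le).toMeasure
                      (geometricPMF hp hp1.le).toMeasure))
            /
            Real.sqrt
              (variance
                  (fun ω : Fin n × Fin n → ℕ × ℕ =>
                    (((Finset.univ.filter (fun S : Finset (Fin n × Fin n) =>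
                        IsChain (· ≤ ·) (S : Set (Fin n × Fin n)))).sup
                        (fun S => ∑ v ∈ S, (ω v).1) : ℕ) : ℝ))
                  (Measure.pi (fun _ : Fin n × Fin n =>
                    (Real.toNNReal (Real.exp (-t))) •
                        Measure.map (fun a : ℕ => (a, a)) (geometricPMF hp hp1.le).toMeasure +
                      (Real.toNNReal (1 - Real.exp (-t))) •
                        Measure.prod (geometricPMF hp hp1.le).toMeasure
                          (geometricPMF hp hp1.le).toMeasure)) *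
                variance
                  (fun ω : Fin n × Fin n → ℕ × ℕ =>
                    (((Finset.univ.filter (fun S : Finset (Fin n × Fin n) =>
                        IsChain (· ≤ ·) (S : Set (Fin n × Fin n)))).sup
                        (fun S => ∑ v ∈ S, (ω v).2) : ℕ) : ℝ))
                  (Measure.pi (fun _ : Fin n × Fin n =>
                    (Real.toNNReal (Real.exp (-t))) •
                        Measure.map (fun a : ℕ => (a, a)) (geometricPMF hp hp1.le).toMeasure +
                      (Real.toNNReal (1 - Real.exp (-t))) •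
                        Measure.prod (geometricPMF hp hp1.le).toMeasure
                          (geometricPMF hp hp1.le).toMeasure))))
        atTop (nhds 0) := by
  intro p hp hp1 t ht
  have hρ : 0 < Real.exp (-t) := Real.exp_pos _
  have hρ1 : Real.exp (-t) < 1 := by
    rw [Real.exp_lt_one_iff]; linarith
  have hq : 0 < 1 - p := by linarith
  have hq1 : 1 - p < 1 := by linarith
  have hP : Par (1 - p) (Real.exp (-t)) 0 := ⟨hq, hq1, hρ, hρ1, Or.inl rfl⟩
  obtain ⟨c, C, hc, -, n₁, hk⟩ := hK (1 - p) hq hq1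
  rw [geo_eq p hp hp1]
  have hmeas : (Real.toNNReal (Real.exp (-t))) • Measure.map (fun a : ℕ => (a, a)) (geoM (1 - p)) +
      (Real.toNNReal (1 - Real.exp (-t))) • Measure.prod (geoM (1 - p)) (geoM (1 - p)) =
      prM (1 - p) (Real.exp (-t)) := rfl
  simp only [hmeas]
  have hTc : ∀ (n : ℕ) (W : V n → ℕ), ((Finset.univ.filter (fun S : Finset (Fin n × Fin n) =>
      IsChain (· ≤ ·) (S : Set (Fin n × Fin n)))).sup (fun S => ∑ v ∈ S, W v)) = Tc W := by
    intro n W
    rw [hC n W]
  rw [Metric.tendsto_atTop]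
  intro ε hε
  obtain ⟨n₂, hn₂⟩ := hM (1 - p) (Real.exp (-t)) 0 hP ((ε / 2) ^ 2) (by positivity)
  refine ⟨max (max n₁ n₂) 1, fun n hn => ?_⟩
  have h1 : n₁ ≤ n := le_trans (le_trans (le_max_left _ _) (le_max_left _ _)) hn
  have h2 : n₂ ≤ n := le_trans (le_trans (le_max_right _ _) (le_max_left _ _)) hn
  have h3 : 1 ≤ n := le_trans (le_max_right _ _) hn
  have hpos : 0 < variance (fun W : V n → ℕ => (Tc W : ℝ)) (muY (1 - p) n) := by
    refine lt_of_lt_of_le ?_ (hk n h1).1
    have : (0 : ℝ) < n := by exact_mod_cast h3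
    positivity
  have hmain := cor_le hL (1 - p) (Real.exp (-t)) n hP ((ε / 2) ^ 2) (by positivity)
    (hn₂ n h2) hpos
  rw [Real.sqrt_sq (by positivity)] at hmain
  rw [Real.dist_eq, sub_zero]
  refine lt_of_le_of_lt ?_ (half_lt_self hε)
  simp only [hTc]
  exact hmain

end Pool.Agent.W533.LP
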