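import Pool.Agent.W533.LP.Stm2

/-!
# Up-right paths and the last passage time
-/

set_option autoImplicit false

namespace Pool.Agent.W533.LP

open MeasureTheory ProbabilityTheory

/-- Number of steps to the right before time `k`. -/
def aS (s : ℕ → Bool) (k : ℕ) : ℕ := ((Finset.range k).filter (fun j => s j = true)).card

lemma aS_zero (s : ℕ → Bool) : aS s 0 = 0 := by simp [aS]

lemma aS_succ (s : ℕ → Bool) (k : ℕ) : aS s (k + 1) = aS s k + (if s k then 1 else 0) := by
  unfold aS
  rw [Finset.range_add_one, Finset.filter_insert]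
  split_ifs with h
  · rw [Finset.card_insert_of_notMem (by simp)]
  · simp

lemma aS_le (s : ℕ → Bool) (k : ℕ) : aS s k ≤ k := by
  unfold aS
  exact (Finset.card_filter_le _ _).trans (by simp)

lemma aS_mono (s : ℕ → Bool) {k l : ℕ} (h : k ≤ l) : aS s k ≤ aS s l := by
  unfold aS
  apply Finset.card_le_card
  intro x hx
  simp only [Finset.mem_filter, Finset.mem_range] at hx ⊢
  exact ⟨by omega, hx.2⟩

lemma aS_lip (s : ℕ → Bool) {k l : ℕ} (h : k ≤ l) : aS s l + k ≤ aS s k + l := by
  induction l, h using Nat.le_induction with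
  | base => omega
  | succ l hl ih =>
    rw [aS_succ]
    split_ifs <;> omega

lemma aS_congr (s t : ℕ → Bool) (N : ℕ) (h : ∀ j < N, s j = t j) {k : ℕ} (hk : k ≤ N) :
    aS s k = aS t k := by
  unfold aS
  congr 1
  apply Finset.filter_congr
  intro j hj
  rw [Finset.mem_range] at hj
  rw [h j (by omega)]

lemma T_succ (W : ℕ → ℕ → ℕ) (a b : ℕ) :
    T W (a + 1) (b + 1) = max (T W a (b + 1)) (T W (a + 1) b) + W a b := by
  unfold T
  rw [G]

lemma T_zl (W : ℕ → ℕ → ℕ) (b : ℕ) : T W 0 (b + 1) = T W 0 b := by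
  unfold T
  rw [G]
  rfl

lemma T_zr (W : ℕ → ℕ → ℕ) (a : ℕ) : T W (a + 1) 0 = T W a 0 := by
  unfold T
  rw [G]
  rfl

lemma path_le (W : ℕ → ℕ → ℕ) (s : ℕ → Bool) (N : ℕ) :
    ∑ k ∈ Finset.range (N + 1), W (aS s k) (k - aS s k) ≤ T W (aS s N + 1) (N - aS s N + 1) := by
  induction N with
  | zero => simp [aS_zero, T, G]
  | succ N ih =>
    rw [Finset.sum_range_succ]
    have hle := aS_le s N
    by_cases h : s N
    · have h1 : aS s (N + 1) = aS s N + 1 := by rw [aS_succ]; simp [h]
      have h2 : N + 1 - (aS s N + 1) = N - aS s N := by omega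
      rw [h1, h2]
      have : T W (aS s N + 1 + 1) (N - aS s N + 1) =
        max (T W (aS s N + 1) (N - aS s N + 1)) (T W (aS s N + 1 + 1) (N - aS s N)) +
          W (aS s N + 1) (N - aS s N) := T_succ _ _ _
      rw [this]
      have := le_max_left (T W (aS s N + 1) (N - aS s N + 1)) (T W (aS s N + 1 + 1) (N - aS s N))
      omega
    · have h1 : aS s (N + 1) = aS s N := by rw [aS_succ]; simp [h]
      have h2 : N + 1 - aS s N = (N - aS s N) + 1 := by omega
      rw [h1, h2]
      have : T W (aS s N + 1) (N - aS s N + 1 + 1) =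
        max (T W (aS s N) (N - aS s N + 1 + 1)) (T W (aS s N + 1) (N - aS s N + 1)) +
          W (aS s N) (N - aS s N + 1) := T_succ _ _ _
      rw [this]
      have := le_max_right (T W (aS s N) (N - aS s N + 1 + 1)) (T W (aS s N + 1) (N - aS s N + 1))
      omega

lemma T_zero_left (W : ℕ → ℕ → ℕ) (b : ℕ) : T W 0 b = 0 := by
  induction b with
  | zero => simp [T, G]
  | succ b ih =>
    rw [T_zl, ih]

lemma T_zero_right (W : ℕ → ℕ → ℕ) (a : ℕ) : T W a 0 = 0 := by
  induction a with
  | zero => simp [T, G]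
  | succ a ih =>
    rw [T_zr, ih]

lemma path_step (W : ℕ → ℕ → ℕ) (N : ℕ) (s : ℕ → Bool) (b : Bool) :
    ∃ t : ℕ → Bool, aS t (N + 1) = aS s N + (if b then 1 else 0) ∧
      ∑ k ∈ Finset.range (N + 1 + 1), W (aS t k) (k - aS t k) =
        ∑ k ∈ Finset.range (N + 1), W (aS s k) (k - aS s k) +
          W (aS s N + (if b then 1 else 0)) (N + 1 - (aS s N + (if b then 1 else 0))) := by
  refine ⟨Function.update s N b, ?_, ?_⟩
  · rw [aS_succ, Function.update_self, aS_congr (Function.update s N b) s N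
      (fun j hj => Function.update_of_ne (by omega) _ _) le_rfl]
  · rw [Finset.sum_range_succ]
    congr 1
    · apply Finset.sum_congr rfl
      intro k hk
      rw [Finset.mem_range] at hk
      rw [aS_congr (Function.update s N b) s N
        (fun j hj => Function.update_of_ne (by omega) _ _) (by omega)]
    · rw [aS_succ, Function.update_self, aS_congr (Function.update s N b) s N
        (fun j hj => Function.update_of_ne (by omega) _ _) le_rfl]

lemma path_ex (W : ℕ → ℕ → ℕ) : ∀ N a b : ℕ, a + b = N → ∃ s : ℕ → Bool, aS s N = a ∧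
    ∑ k ∈ Finset.range (N + 1), W (aS s k) (k - aS s k) = T W (a + 1) (b + 1) := by
  intro N
  induction N with
  | zero =>
    intro a b hab
    obtain rfl : a = 0 := by omega
    obtain rfl : b = 0 := by omega
    exact ⟨fun _ => false, by simp [aS], by simp [aS, T, G, zero]⟩
  | succ N ih =>
    intro a b hab
    have hT : T W (a + 1) (b + 1) = max (T W a (b + 1)) (T W (a + 1) b) + W a b := T_succ _ _ _
    have hright : ∀ a', a = a' + 1 → T W (a + 1) b ≤ T W a (b + 1) → ∃ s : ℕ → Bool,
        aS s (N + 1) = a ∧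
        ∑ k ∈ Finset.range (N + 1 + 1), W (aS s k) (k - aS s k) = T W (a + 1) (b + 1) := by
      intro a' ha' hm
      subst ha'
      obtain ⟨s, hs, hsum⟩ := ih a' b (by omega)
      obtain ⟨t, ht, htsum⟩ := path_step W N s true
      refine ⟨t, by rw [ht, hs]; simp, ?_⟩
      rw [htsum, hsum, hT, hs, max_eq_left hm]
      congr 2
      simp
      omega
    have hup : ∀ b', b = b' + 1 → T W a (b + 1) ≤ T W (a + 1) b → ∃ s : ℕ → Bool,
        aS s (N + 1) = a ∧
        ∑ k ∈ Finset.range (N + 1 + 1), W (aS s k) (k - aS s k) = T W (a + 1) (b + 1) := by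
      intro b' hb' hm
      subst hb'
      obtain ⟨s, hs, hsum⟩ := ih a b' (by omega)
      obtain ⟨t, ht, htsum⟩ := path_step W N s false
      refine ⟨t, by rw [ht, hs]; simp, ?_⟩
      rw [htsum, hsum, hT, hs, max_eq_right hm]
      congr 2
      simp
      omega
    rcases Nat.eq_zero_or_pos a with ha | ha
    · subst ha
      exact hup (b - 1) (by omega) (by rw [T_zero_left]; exact Nat.zero_le _)
    · rcases Nat.eq_zero_or_pos b with hb | hb
      · subst hb
        exact hright (a - 1) (by omega) (by rw [T_zero_right]; exact Nat.zero_le _)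
      · rcases le_total (T W (a + 1) b) (T W a (b + 1)) with h | h
        · exact hright (a - 1) (by omega) h
        · exact hup (b - 1) (by omega) h

/-- Extension of a finite sequence. -/
def exS {N : ℕ} (s : Fin N → Bool) : ℕ → Bool := fun j => if h : j < N then s ⟨j, h⟩ else false

lemma card_eq {N : ℕ} (s : Fin N → Bool) (k : ℕ) (hk : k ≤ N) :
    (Finset.univ.filter (fun j : Fin N => (j : ℕ) < k ∧ s j = true)).card = aS (exS s) k := by
  unfold aS
  refine Finset.card_bij (fun j _ => (j : ℕ)) ?_ ?_ ?_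
  · intro j hj
    simp only [Finset.mem_filter, Finset.mem_univ, true_and, Finset.mem_range] at hj ⊢
    refine ⟨hj.1, ?_⟩
    simp [exS, hj.2]
  · intro i _ j _ h
    exact Fin.ext h
  · intro j hj
    simp only [Finset.mem_filter, Finset.mem_range] at hj
    have hjN : j < N := by omega
    refine ⟨⟨j, hjN⟩, ?_, rfl⟩
    simp only [Finset.mem_filter, Finset.mem_univ, true_and]
    refine ⟨hj.1, ?_⟩
    have := hj.2
    simpa [exS, hjN] using this

lemma card_eq' {N : ℕ} (s : Fin N → Bool) :
    (Finset.univ.filter (fun j : Fin N => s j = true)).card = aS (exS s) N := by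
  rw [← card_eq s N le_rfl]
  congr 1
  apply Finset.filter_congr
  intro j _
  simp

/-- The supremum over paths is the last passage time. -/
lemma sup_path (n : ℕ) (w : V (n + 1) → ℕ) (f : ℤ × ℤ → ℝ)
    (hf : ∀ v : V (n + 1), f (((v.1 : ℕ) : ℤ), ((v.2 : ℕ) : ℤ)) = w v) :
    (⨆ s : {s : Fin (2 * n) → Bool // (Finset.univ.filter (fun j => s j = true)).card = n},
        ∑ k : Fin (2 * n + 1), f (((Finset.univ.filter
                  (fun j : Fin (2 * n) => (j : ℕ) < (k : ℕ) ∧ s.1 j = true)).card : ℤ),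
               (k : ℤ) - ((Finset.univ.filter
                  (fun j : Fin (2 * n) => (j : ℕ) < (k : ℕ) ∧ s.1 j = true)).card : ℤ))) =
      (Tc w : ℝ) := by
  have key : ∀ s : Fin (2 * n) → Bool, (Finset.univ.filter (fun j => s j = true)).card = n →
      ∑ k : Fin (2 * n + 1), f (((Finset.univ.filter
                  (fun j : Fin (2 * n) => (j : ℕ) < (k : ℕ) ∧ s j = true)).card : ℤ),
               (k : ℤ) - ((Finset.univ.filter
                  (fun j : Fin (2 * n) => (j : ℕ) < (k : ℕ) ∧ s j = true)).card : ℤ)) =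
      ((∑ k ∈ Finset.range (2 * n + 1), ex w (aS (exS s) k) (k - aS (exS s) k) : ℕ) : ℝ) := by
    intro s hs
    rw [card_eq'] at hs
    push_cast
    rw [← Fin.sum_univ_eq_sum_range (fun k => ((ex w (aS (exS s) k) (k - aS (exS s) k) : ℕ) : ℝ))
      (2 * n + 1)]
    apply Finset.sum_congr rfl
    intro k _
    have hk : (k : ℕ) ≤ 2 * n := by omega
    rw [card_eq s k hk]
    have h1 : aS (exS s) k ≤ n := by
      have := aS_mono (exS s) hk
      omega
    have h2 := aS_le (exS s) k
    have h3 : (k : ℕ) - aS (exS s) k ≤ n := by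
      have := aS_lip (exS s) hk
      omega
    have h4 : ((k : ℕ) : ℤ) - ((aS (exS s) k : ℕ) : ℤ) = (((k : ℕ) - aS (exS s) k : ℕ) : ℤ) := by
      omega
    rw [h4]
    have := hf (⟨aS (exS s) k, by omega⟩, ⟨(k : ℕ) - aS (exS s) k, by omega⟩)
    rw [this]
    congr 1
    unfold ex
    rw [dif_pos ⟨by omega, by omega⟩]
  obtain ⟨s₀, hs₀, hsum₀⟩ := path_ex (ex w) (2 * n) n n (by omega)
  set s₁ : Fin (2 * n) → Bool := fun j => s₀ j with hs₁
  have hcg : ∀ k, k ≤ 2 * n → aS (exS s₁) k = aS s₀ k := by
    intro k hk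
    refine aS_congr _ _ (2 * n) (fun j hj => ?_) hk
    simp [exS, hs₁, hj]
  have hcard : (Finset.univ.filter (fun j => s₁ j = true)).card = n := by
    rw [card_eq', hcg _ le_rfl, hs₀]
  have : Nonempty {s : Fin (2 * n) → Bool //
      (Finset.univ.filter (fun j => s j = true)).card = n} := ⟨⟨s₁, hcard⟩⟩
  apply le_antisymm
  · apply ciSup_le
    intro s
    rw [key s.1 s.2]
    have h := path_le (ex w) (exS s.1) (2 * n)
    have h5 : aS (exS s.1) (2 * n) = n := by rw [← card_eq']; exact s.2
    rw [h5] at h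
    have h6 : 2 * n - n + 1 = n + 1 := by omega
    rw [h6] at h
    exact_mod_cast h
  · have h := key s₁ hcard
    have h7 : ((Tc w : ℕ) : ℝ) = ((∑ k ∈ Finset.range (2 * n + 1),
        ex w (aS (exS s₁) k) (k - aS (exS s₁) k) : ℕ) : ℝ) := by
      unfold Tc
      rw [← hsum₀]
      congr 1
      apply Finset.sum_congr rfl
      intro k hk
      rw [Finset.mem_range] at hk
      rw [hcg k (by omega)]
    rw [h7, ← h]
    exact le_ciSup (f := fun s : {s : Fin (2 * n) → Bool //
        (Finset.univ.filter (fun j => s j = true)).card = n} =>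
        ∑ k : Fin (2 * n + 1), f (((Finset.univ.filter
                  (fun j : Fin (2 * n) => (j : ℕ) < (k : ℕ) ∧ s.1 j = true)).card : ℤ),
               (k : ℤ) - ((Finset.univ.filter
                  (fun j : Fin (2 * n) => (j : ℕ) < (k : ℕ) ∧ s.1 j = true)).card : ℤ)))
      (Set.finite_range _).bddAbove ⟨s₁, hcard⟩

end Pool.Agent.W533.LP
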