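import Pool.Agent.W533.LP.F1
import Pool.Agent.W533.LP.F2a

/-!
# Hidden first bits: probabilistic part
-/

set_option autoImplicit false

namespace Pool.Agent.W533.LP

open MeasureTheory ProbabilityTheory

/-- Conditional expectation of a function of a measurable variable and an independent one. -/
lemma condExp_ind {Ω Y H : Type} [MeasurableSpace Y] [MeasurableSpace H]
    {m mΩ : MeasurableSpace Ω} (hm : m ≤ mΩ) (μ : @Measure Ω mΩ) [IsProbabilityMeasure μ]
    (y : Ω → Y) (hy : @Measurable Ω Y m _ y) (h : Ω → H) (hh : @Measurable Ω H mΩ _ h)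
    (hind : Indep m (MeasurableSpace.comap h inferInstance) μ) (F : Y × H → ℝ)
    (hF : Measurable F) (hint : Integrable (fun ω => F (y ω, h ω)) μ) :
    μ[fun ω => F (y ω, h ω) | m] =ᵐ[μ] fun ω => ∫ x, F (y ω, x) ∂(μ.map h) := by
  have hy' : @Measurable Ω Y mΩ _ y := hy.mono hm le_rfl
  have hνp : IsProbabilityMeasure (μ.map h) := Measure.isProbabilityMeasure_map hh.aemeasurable
  have hg : StronglyMeasurable (fun b : Y => ∫ x, F (b, x) ∂(μ.map h)) :=
    hF.stronglyMeasurable.integral_prod_right'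
  have hprod : ∀ A : Set Ω, MeasurableSet[m] A →
      (μ.restrict A).map (fun ω => (y ω, h ω)) = ((μ.restrict A).map y).prod (μ.map h) := by
    intro A hA
    symm
    apply Measure.prod_eq
    intro s t hs ht
    rw [Measure.map_apply (hy'.prodMk hh) (hs.prod ht), Measure.map_apply hy' hs,
      Measure.map_apply hh ht]
    have hA' : MeasurableSet[mΩ] A := hm _ hA
    rw [Measure.restrict_apply (hy'.prodMk hh (hs.prod ht)), Measure.restrict_apply (hy' hs)]
    have e : (fun ω => (y ω, h ω)) ⁻¹' s ×ˢ t ∩ A = (y ⁻¹' s ∩ A) ∩ h ⁻¹' t := by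
      ext ω; simp only [Set.mem_inter_iff, Set.mem_preimage, Set.mem_prod]; tauto
    rw [e]
    rw [Indep_iff] at hind
    exact hind _ _ (MeasurableSet.inter (hy hs) hA) ⟨t, ht, rfl⟩
  have hintg : Integrable (fun ω => ∫ x, F (y ω, x) ∂(μ.map h)) μ := by
    have h1 := hprod Set.univ MeasurableSet.univ
    simp only [Measure.restrict_univ] at h1
    have h2 : Integrable F ((μ.map y).prod (μ.map h)) := by
      rw [← h1, integrable_map_measure hF.aestronglyMeasurable (hy'.prodMk hh).aemeasurable]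
      exact hint
    exact h2.integral_prod_left.comp_measurable hy'
  symm
  refine ae_eq_condExp_of_forall_setIntegral_eq hm hint (fun A _ _ => hintg.integrableOn) ?_
    (hg.comp_measurable hy).aestronglyMeasurable
  intro A hA _
  have h1 := hprod A hA
  have h2 : Integrable F (((μ.restrict A).map y).prod (μ.map h)) := by
    rw [← h1, integrable_map_measure hF.aestronglyMeasurable (hy'.prodMk hh).aemeasurable]
    exact hint.integrableOn
  have h3 : ∫ ω in A, F (y ω, h ω) ∂μ = ∫ z, F z ∂(((μ.restrict A).map y).prod (μ.map h)) := by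
    rw [← h1, integral_map (hy'.prodMk hh).aemeasurable hF.aestronglyMeasurable]
  rw [h3, integral_prod _ h2, integral_map hy'.aemeasurable hg.aestronglyMeasurable]

/-- Number of leading ones. -/
noncomputable def lead (b : ℕ → ℝ) : ℕ := by
  classical
  exact if h : ∃ i, b i ≠ 1 then Nat.find h else 0

lemma lead_eq (b : ℕ → ℝ) (hb : ∃ i, b i ≠ 1) (k : ℕ) :
    lead b = k ↔ (∀ j < k, b j = 1) ∧ b k ≠ 1 := by
  classical
  unfold lead
  rw [dif_pos hb, Nat.find_eq_iff]
  push Not
  tauto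

lemma lead_spec (b : ℕ → ℝ) (hb : ∃ i, b i ≠ 1) :
    (∀ j < lead b, b j = 1) ∧ b (lead b) ≠ 1 := (lead_eq b hb (lead b)).1 rfl

lemma lead_meas : Measurable lead := by
  classical
  have hE : MeasurableSet {b : ℕ → ℝ | ∃ i, b i ≠ 1} := by
    rw [Set.setOf_exists]
    refine MeasurableSet.iUnion fun i => ?_
    exact (measurable_pi_apply i : Measurable fun b : ℕ → ℝ => b i)
      (measurableSet_singleton (1 : ℝ)).compl
  refine measurable_to_countable' fun k => ?_
  have e : lead ⁻¹' {k} = ({b | ∃ i, b i ≠ 1} ∩ {b | (∀ j < k, b j = 1) ∧ b k ≠ 1}) ∪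
      ({b | ∃ i, b i ≠ 1}ᶜ ∩ {_b | k = 0}) := by
    ext b
    simp only [Set.mem_preimage, Set.mem_singleton_iff, Set.mem_union, Set.mem_inter_iff,
      Set.mem_setOf_eq, Set.mem_compl_iff]
    by_cases hb : ∃ i, b i ≠ 1
    · rw [lead_eq b hb k]
      tauto
    · have : lead b = 0 := by unfold lead; rw [dif_neg hb]
      rw [this]
      constructor
      · intro h; exact Or.inr ⟨hb, h.symm⟩
      · rintro (h | h)
        · exact absurd h.1 hb
        · exact h.2.symm
  rw [e]
  refine (hE.inter ?_).union (hE.compl.inter (MeasurableSet.const _))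
  have e2 : {b : ℕ → ℝ | (∀ j < k, b j = 1) ∧ b k ≠ 1} =
      (⋂ j ∈ Finset.range k, {b : ℕ → ℝ | b j = 1}) ∩ {b : ℕ → ℝ | b k = 1}ᶜ := by
    ext b
    simp
  rw [e2]
  refine (Finset.measurableSet_biInter _ fun j _ => ?_).inter (MeasurableSet.compl ?_)
  · exact (measurable_pi_apply j : Measurable fun b : ℕ → ℝ => b j)
      (measurableSet_singleton (1 : ℝ))
  · exact (measurable_pi_apply k : Measurable fun b : ℕ → ℝ => b k)
      (measurableSet_singleton (1 : ℝ))

/-- The series in the statement. -/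
lemma tsum_lead (b : ℕ → ℝ) (h01 : ∀ i, b i = 0 ∨ b i = 1) (hb : ∃ i, b (i + 1) ≠ 1) :
    ∑' i : ℕ, ∏ j ∈ Finset.range (i + 1), b j =
      ((if b 0 = 1 then lead (fun i => b (i + 1)) + 1 else 0 : ℕ) : ℝ) := by
  rcases h01 0 with h0 | h0
  · have : ∀ i : ℕ, ∏ j ∈ Finset.range (i + 1), b j = 0 := by
      intro i
      exact Finset.prod_eq_zero (Finset.mem_range.2 (Nat.succ_pos i)) h0
    simp [this, h0]
  · rw [if_pos h0]
    obtain ⟨h1, h2⟩ := lead_spec (fun i => b (i + 1)) hb
    set N := lead (fun i => b (i + 1)) with hN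
    have h3 : b (N + 1) = 0 := by
      rcases h01 (N + 1) with h | h
      · exact h
      · exact absurd h h2
    have h4 : ∀ j < N + 1, b j = 1 := by
      intro j hj
      rcases j with _ | j
      · exact h0
      · exact h1 j (by omega)
    rw [tsum_eq_sum (s := Finset.range (N + 1))]
    · rw [Finset.sum_congr rfl (g := fun _ => (1 : ℝ))]
      · simp
      · intro i hi
        rw [Finset.mem_range] at hi
        apply Finset.prod_eq_one
        intro j hj
        rw [Finset.mem_range] at hj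
        exact h4 j (by omega)
    · intro i hi
      rw [Finset.mem_range, not_lt] at hi
      exact Finset.prod_eq_zero (i := N + 1) (Finset.mem_range.2 (by omega)) h3

/-- The site as a pair of integers. -/
def st {n : ℕ} (v : V (n + 1)) : ℤ × ℤ := (((v.1 : ℕ) : ℤ), ((v.2 : ℕ) : ℤ))

lemma st_inj {n : ℕ} : Function.Injective (st (n := n)) := by
  intro v w h
  simp only [st, Prod.mk.injEq, Nat.cast_inj] at h
  exact Prod.ext (Fin.ext h.1) (Fin.ext h.2)

/-- Visible variables. -/
noncomputable def yy {Ω : Type} (n : ℕ) (X : ℤ × ℤ → ℕ → Ω → ℝ) (ω : Ω) : V (n + 1) → ℕ :=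
  fun v => lead (fun i => X (st v) (i + 1) ω)

/-- Hidden variables. -/
noncomputable def hh {Ω : Type} (n : ℕ) (X : ℤ × ℤ → ℕ → Ω → ℝ) (ω : Ω) :
    V (n + 1) → Bool × ℕ := by
  classical
  exact fun v => (decide (X (st v) 0 ω = 1), 0)

lemma hh_eq {Ω : Type} (n : ℕ) (X : ℤ × ℤ → ℕ → Ω → ℝ) (ω : Ω) (v : V (n + 1)) :
    ((hh n X ω v).1 = true ↔ X (st v) 0 ω = 1) ∧ (hh n X ω v).2 = 0 := by
  classical
  unfold hh
  simp

lemma yy_meas {Ω : Type} (m : MeasurableSpace Ω) (n : ℕ) (X : ℤ × ℤ → ℕ → Ω → ℝ)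
    (hX : ∀ v i, 1 ≤ i → @Measurable Ω ℝ m _ (X v i)) : @Measurable Ω _ m _ (yy n X) := by
  unfold yy
  rw [measurable_pi_iff]
  intro v
  refine lead_meas.comp ?_
  rw [measurable_pi_iff]
  intro i
  exact hX _ _ (by omega)

lemma hh_meas {Ω : Type} (m : MeasurableSpace Ω) (n : ℕ) (X : ℤ × ℤ → ℕ → Ω → ℝ)
    (hX : ∀ v, @Measurable Ω ℝ m _ (X v 0)) : @Measurable Ω _ m _ (hh n X) := by
  classical
  rw [measurable_pi_iff]
  intro v
  have : (fun ω => hh n X ω v) = (fun x : ℝ => (decide (x = 1), 0)) ∘ (X (st v) 0) := by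
    funext ω
    unfold hh
    simp
  rw [this]
  refine Measurable.comp ?_ (hX (st v))
  refine Measurable.prodMk ?_ measurable_const
  refine measurable_to_bool ?_
  have : (fun x : ℝ => decide (x = 1)) ⁻¹' {true} = {1} := by
    ext x; simp
  rw [this]
  exact measurableSet_singleton _

section law

variable {Ω : Type} [MeasurableSpace Ω] {μ : Measure Ω} [IsProbabilityMeasure μ] {p : ℝ}
  {X : ℤ × ℤ → ℕ → Ω → ℝ}

lemma mu_compl (hX : ∀ v i, Measurable (X v i)) (hp : 0 < p)
    (hlaw : ∀ v i, μ {ω | X v i ω = 1} = ENNReal.ofReal p ∧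
            μ {ω | X v i ω = 0} = ENNReal.ofReal (1 - p)) (v : ℤ × ℤ) (i : ℕ) :
    μ (X v i ⁻¹' {1}) = ENNReal.ofReal p ∧ μ (X v i ⁻¹' {1}ᶜ) = ENNReal.ofReal (1 - p) := by
  have h1 : μ (X v i ⁻¹' {1}) = ENNReal.ofReal p := (hlaw v i).1
  refine ⟨h1, ?_⟩
  rw [Set.preimage_compl, prob_compl_eq_one_sub (hX v i (measurableSet_singleton _)), h1,
    ENNReal.ofReal_sub _ hp.le, ENNReal.ofReal_one]

lemma ae_bit (hX : ∀ v i, Measurable (X v i)) (hp : 0 < p) (hp1 : p < 1)
    (hlaw : ∀ v i, μ {ω | X v i ω = 1} = ENNReal.ofReal p ∧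
            μ {ω | X v i ω = 0} = ENNReal.ofReal (1 - p)) :
    ∀ᵐ ω ∂μ, ∀ v i, X v i ω = 0 ∨ X v i ω = 1 := by
  rw [ae_all_iff]
  intro v
  rw [ae_all_iff]
  intro i
  have h0 : MeasurableSet {ω | X v i ω = 0} := hX v i (measurableSet_singleton 0)
  have h1 : MeasurableSet {ω | X v i ω = 1} := hX v i (measurableSet_singleton 1)
  have hd : Disjoint {ω | X v i ω = 0} {ω | X v i ω = 1} := by
    rw [Set.disjoint_left]
    intro ω ha hb
    simp only [Set.mem_setOf_eq] at ha hb
    linarith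
  have hu : μ ({ω | X v i ω = 0} ∪ {ω | X v i ω = 1}) = 1 := by
    rw [measure_union hd h1, (hlaw v i).1, (hlaw v i).2, ← ENNReal.ofReal_add (by linarith) hp.le]
    simp
  have := (prob_compl_eq_zero_iff (h0.union h1)).2 hu
  rw [ae_iff]
  convert this using 2
  ext ω
  simp

lemma ae_zero (hX : ∀ v i, Measurable (X v i)) (hp : 0 < p) (hp1 : p < 1)
    (hind : iIndepFun (fun vi : (ℤ × ℤ) × ℕ => X vi.1 vi.2) μ)
    (hlaw : ∀ v i, μ {ω | X v i ω = 1} = ENNReal.ofReal p ∧
            μ {ω | X v i ω = 0} = ENNReal.ofReal (1 - p)) :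
    ∀ᵐ ω ∂μ, ∀ v, ∃ i, X v (i + 1) ω ≠ 1 := by
  rw [ae_all_iff]
  intro v
  have hle : ∀ M : ℕ, μ {ω | ¬ ∃ i, X v (i + 1) ω ≠ 1} ≤ ENNReal.ofReal p ^ M := by
    intro M
    have hinj : Function.Injective (fun i : ℕ => ((v, i + 1) : (ℤ × ℤ) × ℕ)) := by
      intro i j h
      simpa using h
    have h1 := (hind.precomp hinj).measure_inter_preimage_eq_mul (Finset.range M)
      (sets := fun _ => {(1 : ℝ)}) (fun _ _ => measurableSet_singleton _)
    have h2 : ∏ i ∈ Finset.range M, μ ((X v (i + 1)) ⁻¹' {1}) = ENNReal.ofReal p ^ M := by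
      rw [Finset.prod_congr rfl (fun i _ => (mu_compl hX hp hlaw v (i + 1)).1)]
      simp
    rw [← h2]
    refine le_trans (measure_mono ?_) h1.le
    intro ω hω
    simp only [Set.mem_setOf_eq, not_exists, not_not] at hω
    simp [hω]
  have hlim : Filter.Tendsto (fun M : ℕ => ENNReal.ofReal p ^ M) Filter.atTop (nhds 0) :=
    ENNReal.tendsto_pow_atTop_nhds_zero_of_lt_one (by
      rw [← ENNReal.ofReal_one]
      exact (ENNReal.ofReal_lt_ofReal_iff zero_lt_one).2 hp1)
  exact le_antisymm (ge_of_tendsto' hlim hle) bot_le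

lemma hM_sing (hp : 0 < p) (hp1 : p < 1) (c : Bool × ℕ) :
    hM p p 1 {c} = if c.2 = 0 then (if c.1 then ENNReal.ofReal p else ENNReal.ofReal (1 - p))
      else 0 := by
  obtain ⟨b, x⟩ := c
  have : ({(b, x)} : Set (Bool × ℕ)) = {b} ×ˢ {x} := by simp
  unfold hM
  rw [if_neg (by norm_num), this, Measure.prod_prod]
  cases b <;> by_cases hx : x = 0 <;> simp [hx, eq_comm]

lemma geoM_sing (q : ℝ) (k : ℕ) : geoM q {k} = ENNReal.ofReal ((1 - q) * q ^ k) := by
  unfold geoM
  rw [Measure.sum_apply _ (MeasurableSet.singleton k), tsum_eq_single k]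
  · simp
  · intro b hb
    simp [hb]

lemma lawF2 (hX : ∀ v i, Measurable (X v i)) (hp : 0 < p) (hp1 : p < 1)
    (hind : iIndepFun (fun vi : (ℤ × ℤ) × ℕ => X vi.1 vi.2) μ)
    (hlaw : ∀ v i, μ {ω | X v i ω = 1} = ENNReal.ofReal p ∧
            μ {ω | X v i ω = 0} = ENNReal.ofReal (1 - p)) (n : ℕ) :
    μ.map (fun ω => (yy n X ω, hh n X ω)) = (muY p (n + 1)).prod (muH p p 1 (n + 1)) := by
  classical
  have hy := yy_meas _ n X (fun v i _ => hX v i)
  have hh' := hh_meas _ n X (fun v => hX v 0)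
  have g1 := geoM_prob p hp hp1
  have g2 := hM_prob p p 1 hp hp1 hp hp1
  refine Measure.ext_of_singleton fun z => ?_
  obtain ⟨k, b⟩ := z
  rw [Measure.map_apply (hy.prodMk hh') (MeasurableSet.singleton _)]
  have hs : ({(k, b)} : Set ((V (n + 1) → ℕ) × (V (n + 1) → Bool × ℕ))) = {k} ×ˢ {b} := by simp
  have hR : ((muY p (n + 1)).prod (muH p p 1 (n + 1))) {(k, b)} =
      ∏ v, (ENNReal.ofReal ((1 - p) * p ^ (k v)) * hM p p 1 {b v}) := by
    rw [hs, Measure.prod_prod]
    unfold muY muH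
    rw [Measure.pi_singleton, Measure.pi_singleton, Finset.prod_mul_distrib]
    congr 1
    exact Finset.prod_congr rfl fun v _ => geoM_sing p (k v)
  rw [hR]
  by_cases hb : ∀ v, (b v).2 = 0
  · have hinj : Function.Injective (fun vj : (Σ _ : V (n + 1), ℕ) =>
        ((st vj.1, vj.2) : (ℤ × ℤ) × ℕ)) := by
      rintro ⟨v, i⟩ ⟨w, j⟩ h
      simp only [Prod.mk.injEq] at h
      obtain ⟨h1, h2⟩ := h
      have := st_inj h1
      subst this
      subst h2
      rfl
    have h1 := (hind.precomp hinj).measure_inter_preimage_eq_mul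
      (Finset.univ.sigma (fun v => Finset.range (k v + 2)))
      (sets := fun vj => if vj.2 = 0 then (if (b vj.1).1 then {(1 : ℝ)} else {1}ᶜ)
        else (if vj.2 ≤ k vj.1 then {1} else {1}ᶜ))
      (fun vj _ => by
        split_ifs
        · exact measurableSet_singleton _
        · exact (measurableSet_singleton _).compl
        · exact measurableSet_singleton _
        · exact (measurableSet_singleton _).compl)
    rw [Finset.prod_sigma] at h1
    have h2 : ∀ v : V (n + 1), ∏ j ∈ Finset.range (k v + 2),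
        μ ((X (st v) j) ⁻¹' (if j = 0 then (if (b v).1 then {(1 : ℝ)} else {1}ᶜ)
        else (if j ≤ k v then {1} else {1}ᶜ))) =
        ENNReal.ofReal ((1 - p) * p ^ (k v)) * hM p p 1 {b v} := by
      intro v
      rw [Finset.prod_range_succ, Finset.prod_range_succ']
      have e1 : ∏ j ∈ Finset.range (k v), μ ((X (st v) (j + 1)) ⁻¹'
          (if j + 1 = 0 then (if (b v).1 then {(1 : ℝ)} else {1}ᶜ)
          else (if j + 1 ≤ k v then {1} else {1}ᶜ))) = ENNReal.ofReal p ^ (k v) := by
        rw [Finset.prod_congr rfl (g := fun _ => ENNReal.ofReal p)]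
        · simp
        · intro j hj
          rw [Finset.mem_range] at hj
          rw [if_neg (by omega), if_pos (by omega)]
          exact (mu_compl hX hp hlaw _ _).1
      have e3 : μ ((X (st v) (k v + 1)) ⁻¹' (if k v + 1 = 0 then
          (if (b v).1 = true then {(1 : ℝ)} else {1}ᶜ)
          else (if k v + 1 ≤ k v then {1} else {1}ᶜ))) = ENNReal.ofReal (1 - p) := by
        rw [if_neg (Nat.succ_ne_zero _), if_neg (by omega)]
        exact (mu_compl hX hp hlaw _ _).2
      have e2 : μ ((X (st v) 0) ⁻¹' (if 0 = 0 then (if (b v).1 = true then {(1 : ℝ)} else {1}ᶜ)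
          else (if 0 ≤ k v then {1} else {1}ᶜ))) =
          (if (b v).1 = true then ENNReal.ofReal p else ENNReal.ofReal (1 - p)) := by
        rw [if_pos rfl]
        split_ifs
        · exact (mu_compl hX hp hlaw _ _).1
        · exact (mu_compl hX hp hlaw _ _).2
      rw [e1, e3, e2, hM_sing hp hp1, if_pos (hb v), ENNReal.ofReal_mul (by linarith),
        ENNReal.ofReal_pow hp.le]
      ring
    have h3 : ∏ v, (ENNReal.ofReal ((1 - p) * p ^ (k v)) * hM p p 1 {b v}) =
        μ (⋂ i ∈ (Finset.univ.sigma (fun v : V (n + 1) => Finset.range (k v + 2))),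
          (X (st i.1) i.2) ⁻¹' (if i.2 = 0 then (if (b i.1).1 then {(1 : ℝ)} else {1}ᶜ)
        else (if i.2 ≤ k i.1 then {1} else {1}ᶜ))) := by
      rw [← Finset.prod_congr rfl (fun v _ => h2 v)]
      exact h1.symm
    rw [h3]
    apply measure_congr
    filter_upwards [ae_zero hX hp hp1 hind hlaw] with ω hω
    rw [eq_iff_iff]
    change (yy n X ω, hh n X ω) = (k, b) ↔ _
    have h4 : ω ∈ (⋂ i ∈ (Finset.univ.sigma (fun v : V (n + 1) => Finset.range (k v + 2))),
          (X (st i.1) i.2) ⁻¹' (if i.2 = 0 then (if (b i.1).1 then {(1 : ℝ)} else {1}ᶜ)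
        else (if i.2 ≤ k i.1 then {1} else {1}ᶜ))) ↔ ∀ v : V (n + 1), ∀ j < k v + 2,
          X (st v) j ω ∈ (if j = 0 then (if (b v).1 then {(1 : ℝ)} else {1}ᶜ)
        else (if j ≤ k v then {1} else {1}ᶜ) : Set ℝ) := by
      simp only [Set.mem_iInter, Finset.mem_sigma, Finset.mem_univ, true_and, Finset.mem_range,
        Sigma.forall, Set.mem_preimage]
    change _ ↔ ω ∈ (⋂ i ∈ (Finset.univ.sigma (fun v : V (n + 1) => Finset.range (k v + 2))),
          (X (st i.1) i.2) ⁻¹' (if i.2 = 0 then (if (b i.1).1 then {(1 : ℝ)} else {1}ᶜ)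
        else (if i.2 ≤ k i.1 then {1} else {1}ᶜ)))
    rw [h4, Prod.mk.injEq, funext_iff, funext_iff, ← forall_and]
    refine forall_congr' fun v => ?_
    have h5 : yy n X ω v = k v ↔ (∀ j < k v, X (st v) (j + 1) ω = 1) ∧
        X (st v) (k v + 1) ω ≠ 1 := lead_eq _ (hω (st v)) (k v)
    have h6 : hh n X ω v = b v ↔ (X (st v) 0 ω = 1 ↔ (b v).1 = true) := by
      obtain ⟨e1, e2⟩ := hh_eq n X ω v
      rw [Prod.ext_iff, e2, hb v, ← e1]
      constructor
      · rintro ⟨h, -⟩; rw [h]
      · intro h; exact ⟨Bool.eq_iff_iff.2 h, rfl⟩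
    rw [h5, h6]
    constructor
    · rintro ⟨⟨ha, hb'⟩, hc⟩ j hj
      rcases Nat.eq_zero_or_pos j with h0 | h0
      · subst h0
        rw [if_pos rfl]
        by_cases hbv : (b v).1 = true
        · rw [if_pos hbv]; exact hc.2 hbv
        · rw [if_neg hbv]; exact fun h => hbv (hc.1 h)
      · rw [if_neg (by omega)]
        by_cases hjk : j ≤ k v
        · rw [if_pos hjk]
          have := ha (j - 1) (by omega)
          rwa [Nat.sub_add_cancel h0] at this
        · rw [if_neg hjk]
          obtain rfl : j = k v + 1 := by omega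
          exact hb'
    · intro h
      refine ⟨⟨fun j hj => ?_, ?_⟩, ?_⟩
      · have := h (j + 1) (by omega)
        rw [if_neg (by omega), if_pos (by omega)] at this
        exact this
      · have := h (k v + 1) (by omega)
        rw [if_neg (by omega), if_neg (by omega)] at this
        exact this
      · have := h 0 (by omega)
        rw [if_pos rfl] at this
        by_cases hbv : (b v).1 = true
        · rw [if_pos hbv] at this
          exact ⟨fun _ => hbv, fun _ => this⟩
        · rw [if_neg hbv] at this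
          exact ⟨fun h => absurd h this, fun h => absurd h hbv⟩
  · push Not at hb
    obtain ⟨v, hv⟩ := hb
    have h1 : hM p p 1 {b v} = 0 := by rw [hM_sing hp hp1, if_neg hv]
    have h2 : ∏ v, (ENNReal.ofReal ((1 - p) * p ^ (k v)) * hM p p 1 {b v}) = 0 :=
      Finset.prod_eq_zero (Finset.mem_univ v) (by rw [h1, mul_zero])
    rw [h2]
    have h3 : (fun ω => (yy n X ω, hh n X ω)) ⁻¹' {(k, b)} = ∅ := by
      rw [Set.eq_empty_iff_forall_notMem]
      intro ω hω
      simp only [Set.mem_preimage, Set.mem_singleton_iff, Prod.mk.injEq] at hω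
      have := (hh_eq n X ω v).2
      rw [hω.2] at this
      exact hv this
    rw [h3, measure_empty]

end law

end Pool.Agent.W533.LP
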